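import Pool.Agent.P8H90.AP.NormA
import Pool.Agent.P8H44.AP.EK
import Pool.Agent.P8H44.AP.EV
import Pool.Agent.P8H43.AP.Ds
import Pool.Agent.P8H57.AP.TowerBA
import Pool.Agent.P8H57.AP.MC
import Pool.Agent.P8H76.AP.Eka
import Pool.Agent.P8H76.AP.Fna

/-!
# Project AP: all packages together

Packages by helper43 (DS), helper44 (EK, EV), helper57 (TWA, MC), helper76 (EKA, FNA).
-/

set_option autoImplicit false

namespace Pool.Agent.P8H90.AP

theorem s_mc : S_MC := Pool.Agent.P8H57.AP.MC.s_mc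

theorem s_nma' : S_NMA :=
  s_nma Pool.Agent.P8H57.AP.s_twa Pool.Agent.P8H44.AP.ek Pool.Agent.P8H76.AP.eka Pool.Agent.P8H44.AP.ev_thm
    Pool.Agent.P8H43.AP.ds

theorem s_fna : S_FNA := Pool.Agent.P8H76.AP.fna Pool.Agent.P8H57.AP.s_twa s_nma' Pool.Agent.P8H76.AP.eka

end Pool.Agent.P8H90.AP
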