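import Pool.Agent.P8H90.AP.DefsA
import Pool.Agent.R352.Q.Three

/-!
# Project AP: the base field, and the incomplete zeta values over it
-/

set_option autoImplicit false

open Set

namespace Pool.Agent.P8H90.AP

open Pool.Agent.R352.E (EE EE_zero_left)
open Pool.Agent.R352.Q (As Ls const_As deriv_As const_pos Zk)

/-! ### The series -/

lemma Ea_term_norm (b : ℚ) (hb : 0 ≤ b) (l : ℕ) (z : ℂ) (m : ℕ) :
    ‖(if m = 0 then (0 : ℂ) else -(-z) ^ m / ((m.factorial : ℂ) * ((m : ℂ) + (b : ℂ)) ^ l))‖ ≤ ‖z‖ ^ m / m.factorial := by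
  split_ifs with h
  · rw [norm_zero]; positivity
  · rw [norm_div, norm_neg, norm_pow, norm_neg, norm_mul, norm_pow, Complex.norm_natCast]
    have h1 : (1 : ℝ) ≤ ‖(m : ℂ) + (b : ℂ)‖ := by
      have e : (m : ℂ) + (b : ℂ) = ((m + b : ℝ) : ℂ) := by push_cast; rfl
      rw [e, Complex.norm_real, Real.norm_eq_abs]
      have h2 : (1 : ℝ) ≤ m := by exact_mod_cast Nat.pos_of_ne_zero h
      have h3 : (0 : ℝ) ≤ b := by exact_mod_cast hb
      exact le_trans (by linarith) (le_abs_self _)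
    have h4 : (1 : ℝ) ≤ ‖(m : ℂ) + (b : ℂ)‖ ^ l := one_le_pow₀ h1
    have h5 : (0 : ℝ) < m.factorial := by positivity
    exact div_le_div_of_nonneg_left (by positivity) h5 (le_mul_of_one_le_right h5.le h4)

lemma Ea_summable (b : ℚ) (hb : 0 ≤ b) (l : ℕ) (z : ℂ) :
    Summable fun m : ℕ => if m = 0 then (0 : ℂ) else -(-z) ^ m / ((m.factorial : ℂ) * ((m : ℂ) + (b : ℂ)) ^ l) :=
  Summable.of_norm_bounded (Real.summable_pow_div_factorial ‖z‖) (Ea_term_norm b hb l z)

lemma Ea_shift (b : ℚ) (hb : 0 ≤ b) (l : ℕ) (z : ℂ) : Ea b l z =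
    ∑' m : ℕ, -(-z) ^ (m + 1) / (((m + 1).factorial : ℂ) * (((m : ℂ) + 1) + (b : ℂ)) ^ l) := by
  rw [Ea, (Ea_summable b hb l z).tsum_eq_zero_add, if_pos rfl, zero_add]
  refine tsum_congr fun m => ?_
  rw [if_neg (Nat.succ_ne_zero m)]
  push_cast
  rfl

lemma Ea_zero (b : ℚ) (l : ℕ) : Ea b l 0 = 0 := by
  rw [Ea]
  have : ∀ m : ℕ, (if m = 0 then (0 : ℂ) else -(-0) ^ m / ((m.factorial : ℂ) * ((m : ℂ) + (b : ℂ)) ^ l)) = 0 := by
    intro m
    split_ifs with h
    · rfl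
    · rw [neg_zero, zero_pow h]; simp
  simp_rw [this]
  exact tsum_zero

lemma EE_coe (l : ℕ) (x : ℝ) : ((EE l x : ℝ) : ℂ) = Ea 0 l x := by
  rw [Ea_shift 0 le_rfl, EE, Complex.ofReal_tsum]
  refine tsum_congr fun m => ?_
  push_cast
  rw [add_zero]

/-! ### The relations between `E_l(x)` and the incomplete zeta values -/

section

open PowerSeries

variable {M : Subfield ℝ}

lemma npow_mem (n : ℕ) : (-1 : ℝ) ^ n ∈ M := M.pow_mem (M.neg_mem M.one_mem) n

lemma L_mem {A L : ℝ⟦X⟧} (hAL : derivative ℝ A = A * L) (J : ℕ) (hne : coeff 0 A ≠ 0)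
    (hA : ∀ j ≤ J, coeff j A ∈ M) : ∀ l < J, coeff l L ∈ M := by
  intro l
  induction l using Nat.strong_induction_on with
  | _ l ih =>
    intro hl
    have h2 := congrArg (coeff l) hAL
    rw [coeff_derivative, coeff_mul, Finset.Nat.sum_antidiagonal_eq_sum_range_succ
      (fun i j => coeff i A * coeff j L), Finset.sum_range_succ'] at h2
    have h3 : coeff l L = (coeff (l + 1) A * ((l : ℝ) + 1) - ∑ i ∈ Finset.range l, coeff (i + 1) A *
        coeff (l - (i + 1)) L) / coeff 0 A := by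
      rw [eq_div_iff hne, h2]
      simp only [Nat.sub_zero]
      ring
    rw [h3]
    refine M.div_mem (M.sub_mem (M.mul_mem (hA _ (by omega)) ?_) (M.sum_mem fun i hi => ?_)) (hA 0 (Nat.zero_le _))
    · exact_mod_cast natCast_mem M (l + 1)
    · have hi' := Finset.mem_range.1 hi
      exact M.mul_mem (hA _ (by omega)) (ih _ (by omega) (by omega))

lemma A_mem {A L : ℝ⟦X⟧} (hAL : derivative ℝ A = A * L) (J : ℕ) (h0 : coeff 0 A ∈ M)
    (hL : ∀ j < J, coeff j L ∈ M) : ∀ l ≤ J, coeff l A ∈ M := by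
  intro l
  induction l using Nat.strong_induction_on with
  | _ l ih =>
    intro hl
    cases l with
    | zero => exact h0
    | succ n =>
      have h2 := congrArg (coeff n) hAL
      rw [coeff_derivative, coeff_mul] at h2
      have h3 : coeff (n + 1) A = (∑ p ∈ Finset.HasAntidiagonal.antidiagonal n, coeff p.1 A *
          coeff p.2 L) / ((n : ℝ) + 1) := by
        rw [eq_div_iff (by positivity), h2]
      rw [h3]
      refine M.div_mem (M.sum_mem fun p hp => ?_) ?_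
      · have hp' := Finset.HasAntidiagonal.mem_antidiagonal.1 hp
        exact M.mul_mem (ih p.1 (by omega) (by omega)) (hL p.2 (by omega))
      · exact_mod_cast natCast_mem M (n + 1)

lemma E_mem {x : ℝ} (hx : 0 < x) (he : Real.exp (-x) ∈ M) {k : ℕ} (hk : 2 ≤ k)
    (hE : ∀ l, 1 ≤ l → l < k → EE l x ∈ M) (hZ : Zk k x ∈ M) : EE k x ∈ M := by
  have ha : 1 - Real.exp (-x) ∈ M := M.sub_mem M.one_mem he
  have ha0 := (const_pos hx).ne'
  have hA0 : coeff 0 (As x) = 1 - Real.exp (-x) := by rw [coeff_zero_eq_constantCoeff_apply, const_As]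
  have hA : ∀ j ≤ k - 1, coeff j (As x) ∈ M := by
    intro j hj
    rcases Nat.eq_zero_or_pos j with rfl | hj0
    · rw [hA0]
      exact ha
    · rw [As, coeff_mk]
      exact M.mul_mem (npow_mem _) (hE j hj0 (by omega))
  have hL := L_mem (deriv_As hx) (k - 1) (by rw [hA0]; exact ha0) hA
  have hL' : ∀ j < k, coeff j (Ls x) ∈ M := by
    intro j hj
    rcases Nat.lt_or_ge j (k - 1) with h | h
    · exact hL j h
    · have hjk : j = k - 1 := by omega
      rw [Zk] at hZ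
      have h4 : coeff (k - 1) (Ls x) = ((-1) ^ k * ((1 - Real.exp (-x)) ^ k * coeff (k - 1) (Ls x))) /
          ((-1) ^ k * (1 - Real.exp (-x)) ^ k) := by
        have : ((-1 : ℝ)) ^ k ≠ 0 := pow_ne_zero _ (by norm_num)
        field_simp
      rw [hjk, h4]
      exact M.div_mem hZ (M.mul_mem (npow_mem _) (M.pow_mem ha _))
  have h2 := A_mem (deriv_As hx) k (by rw [hA0]; exact ha) hL' k le_rfl
  rw [As, coeff_mk] at h2
  have h3 : EE k x = (-1) ^ k * ((-1) ^ k * EE k x) := by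
    rw [← mul_assoc, ← mul_pow]; norm_num
  rw [h3]
  exact M.mul_mem (npow_mem k) h2

end

/-! ### The base field -/

/-- the generators of the base field -/
def gensB (κ : Set ℕ) : Set ℂ := {z | (∃ a : ℂ, IsAlgebraic ℚ a ∧ z = Complex.exp a) ∨
  ∃ (l : ℕ) (b : ℚ) (a : ℂ), 1 ≤ l ∧ 0 ≤ b ∧ b < 1 ∧ ¬(b = 0 ∧ l ∈ κ) ∧ IsAlgebraic ℚ a ∧ z = Ea b l a}

/-- the base field -/
noncomputable def FB (κ : Set ℕ) : Subfield ℂ := Subfield.closure (gensB κ)

/-- the indices of the remaining values -/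
abbrev PB (κ : Set ℕ) : Type := {p : ℕ × ℂ // p.1 ∈ κ ∧ 1 ≤ p.1 ∧ IsAlgebraic ℚ p.2 ∧ p.2 ≠ 0}

/-- the indices in the base field -/
abbrev NB (κ : Set ℕ) : Type := {j : JA // ¬(j.1.2.1 = 0 ∧ j.1.1 + 1 ∈ κ)}

/-- the change of indices -/
def chB (κ : Set ℕ) (I : Type) : PB κ ⊕ (I ⊕ NB κ) → I ⊕ JA := fun s =>
  match s with
  | .inl p => Sum.inr ⟨(p.1.1 - 1, 0, p.1.2), le_rfl, one_pos, p.2.2.2.1, p.2.2.2.2⟩
  | .inr (.inl i) => Sum.inl i
  | .inr (.inr n) => Sum.inr n.1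

lemma chB_inj (κ : Set ℕ) (I : Type) : Function.Injective (chB κ I) := by
  rintro (p | i | n) (q | j | m) h <;> simp only [chB, Sum.inr.injEq, Sum.inl.injEq, reduceCtorEq] at h
  · have h1 := congrArg (fun j : JA => j.1.1) h
    have h2 := congrArg (fun j : JA => j.1.2.2) h
    simp only at h1 h2
    have h3 := p.2.2.1
    have h4 := q.2.2.1
    have : p = q := Subtype.ext (Prod.ext (by omega) h2)
    rw [this]
  · exfalso
    apply m.2
    rw [← h]
    refine ⟨rfl, ?_⟩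
    show p.1.1 - 1 + 1 ∈ κ
    rw [Nat.sub_add_cancel p.2.2.1]
    exact p.2.1
  · rw [h]
  · exfalso
    apply n.2
    rw [h]
    refine ⟨rfl, ?_⟩
    show q.1.1 - 1 + 1 ∈ κ
    rw [Nat.sub_add_cancel q.2.2.1]
    exact q.2.1
  · rw [Subtype.ext h]

/-- the algebraic numbers -/
noncomputable abbrev Qb : IntermediateField ℚ ℂ := algebraicClosure ℚ ℂ

theorem ai_E (hFN : S_FNA) (κ : Set ℕ) : AlgebraicIndependent (FB κ) (fun p : PB κ => Ea 0 p.1.1 p.1.2) := by
  classical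
  -- a basis of the algebraic numbers
  obtain ⟨I, b⟩ : Σ I : Type, Module.Basis I ℚ Qb := ⟨_, Module.Basis.ofVectorSpace ℚ Qb⟩
  obtain ⟨β, hβ⟩ : ∃ β : I → ℂ, β = fun i => ((b i : Qb) : ℂ) := ⟨_, rfl⟩
  have hβa : ∀ i, IsAlgebraic ℚ (β i) := by
    intro i
    rw [hβ]
    exact mem_algebraicClosure_iff.1 (b i).2
  have hβl : LinearIndependent ℚ β := by
    rw [hβ]
    exact b.linearIndependent.map' Qb.val.toLinearMap (LinearMap.ker_eq_bot.2 Subtype.val_injective)
  have h1 := (hFN I β hβa hβl).comp (chB κ I) (chB_inj κ I)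
  obtain ⟨g, hg⟩ : ∃ g : I ⊕ NB κ → ℂ, g = Sum.elim (fun i => Complex.exp (β i)) (fun n : NB κ => valA n.1) := ⟨_, rfl⟩
  have h2 : AlgebraicIndependent ℚ (Sum.elim (fun p : PB κ => Ea 0 p.1.1 p.1.2) g) := by
    convert h1 using 1
    funext s
    rcases s with p | i | n
    · show Ea 0 p.1.1 p.1.2 = Ea 0 (p.1.1 - 1 + 1) p.1.2
      rw [Nat.sub_add_cancel p.2.2.1]
    · rw [hg]; rfl
    · rw [hg]; rfl
  have h3 := (AlgebraicIndependent.sumElim_iff.1 h2).2
  have h4 := (IntermediateField.algebraicIndependent_adjoin_iff (F := ℚ) (s := range g)).2 h3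
  obtain ⟨E0, hE0⟩ : ∃ E0 : IntermediateField ℚ ℂ, E0 = IntermediateField.adjoin ℚ (range g) := ⟨_, rfl⟩
  rw [← hE0] at h4
  have h5 : AlgebraicIndependent (algebraicClosure E0 ℂ) (fun p : PB κ => Ea 0 p.1.1 p.1.2) := h4.algebraicClosure
  -- the base field is contained in this field
  have hgm : ∀ s, g s ∈ algebraicClosure E0 ℂ := by
    intro s
    have h6 : g s ∈ E0 := by
      rw [hE0]
      exact IntermediateField.subset_adjoin _ _ ⟨s, rfl⟩
    exact (algebraicClosure E0 ℂ).algebraMap_mem ⟨g s, h6⟩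
  have hle : FB κ ≤ (algebraicClosure E0 ℂ).toSubfield := by
    rw [FB, Subfield.closure_le]
    rintro z (⟨a, ha, rfl⟩ | ⟨l, c, a, hl, hc0, hc1, hc, ha, rfl⟩)
    · -- exponentials
      show Complex.exp a ∈ algebraicClosure E0 ℂ
      obtain ⟨a', ha'⟩ : ∃ a' : Qb, (a' : ℂ) = a := ⟨⟨a, mem_algebraicClosure_iff.2 ha⟩, rfl⟩
      have e1 : a = ∑ i ∈ (b.repr a').support, (b.repr a' i : ℂ) * β i := by
        rw [← ha']
        conv_lhs => rw [← b.linearCombination_repr a']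
        rw [Finsupp.linearCombination_apply, Finsupp.sum, hβ]
        push_cast
        refine Finset.sum_congr rfl fun i _ => ?_
        rw [← Rat.smul_def]
      rw [e1, Complex.exp_sum]
      refine (algebraicClosure E0 ℂ).prod_mem fun i _ => ?_
      -- a root of a power
      obtain ⟨r, hr⟩ : ∃ r : ℚ, r = b.repr a' i := ⟨_, rfl⟩
      rw [← hr]
      have hden : (r.den : ℂ) ≠ 0 := by exact_mod_cast r.den_ne_zero
      have e2 : Complex.exp ((r : ℂ) * β i) ^ r.den = Complex.exp (β i) ^ r.num := by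
        rw [← Complex.exp_nat_mul, ← Complex.exp_int_mul]
        congr 1
        have e3 : (r : ℂ) = (r.num : ℂ) / (r.den : ℂ) := by
          exact_mod_cast (Rat.num_div_den r).symm
        rw [e3]
        field_simp
      have h7 : Complex.exp (β i) ∈ algebraicClosure E0 ℂ := by
        have := hgm (Sum.inl i)
        rw [hg] at this
        exact this
      have h8 : Complex.exp ((r : ℂ) * β i) ^ r.den ∈ algebraicClosure E0 ℂ := by
        rw [e2]
        exact zpow_mem h7 _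
      exact mem_algebraicClosure_iff.2 ((mem_algebraicClosure_iff.1 h8).of_pow r.pos)
    · show Ea c l a ∈ algebraicClosure E0 ℂ
      by_cases ha0 : a = 0
      · rw [ha0, Ea_zero]
        exact (algebraicClosure E0 ℂ).zero_mem
      · have := hgm (Sum.inr ⟨⟨(l - 1, c, a), hc0, hc1, ha, ha0⟩, by
          rintro ⟨h6, h7⟩
          apply hc
          refine ⟨h6, ?_⟩
          have e : l - 1 + 1 = l := Nat.sub_add_cancel hl
          rw [← e]
          exact h7⟩)
        rw [hg] at this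
        have e : l - 1 + 1 = l := Nat.sub_add_cancel hl
        have h8 : Ea c (l - 1 + 1) a ∈ algebraicClosure E0 ℂ := this
        rwa [e] at h8
  -- restriction of the base
  let _ : Algebra (FB κ) (algebraicClosure E0 ℂ) := (Subfield.inclusion hle).toAlgebra
  have : IsScalarTower (FB κ) (algebraicClosure E0 ℂ) ℂ := IsScalarTower.of_algebraMap_eq fun _ => rfl
  exact h5.restrictScalars (RingHom.injective _)

/-! ### The incomplete zeta values -/

/-- the indices of the incomplete zeta values -/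
abbrev ZP (κ : Set ℕ) : Type := {p : ℕ × ℝ // p.1 ∈ κ ∧ 0 < p.2 ∧ IsAlgebraic ℚ p.2}

lemma mem_FB {κ : Set ℕ} {z : ℂ} (h : z ∈ gensB κ) : z ∈ FB κ := Subfield.subset_closure h

lemma alg_coe {x : ℝ} (hx : IsAlgebraic ℚ x) : IsAlgebraic ℚ (x : ℂ) := hx.algebraMap

theorem ai_Z (hFN : S_FNA) (hMC : S_MC) (κ : Set ℕ) (hκ : ∀ k ∈ κ, 2 ≤ k) :
    AlgebraicIndependent (FB κ) (fun p : ZP κ => ((Zk p.1.1 p.1.2 : ℝ) : ℂ)) := by
  classical
  refine algebraicIndependent_of_finite_type fun t ht => ?_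
  obtain ⟨m, hm⟩ : ∃ m : ℕ, ∀ p ∈ t, p.1.1 ≤ m :=
    ⟨ht.toFinset.sup (fun p => p.1.1), fun p hp => Finset.le_sup (f := fun p : ZP κ => p.1.1) (ht.mem_toFinset.2 hp)⟩
  obtain ⟨T, hT⟩ : ∃ T : Finset (ZP κ), ∀ p : ZP κ, p ∈ T ↔ p.1.1 ≤ m ∧ ∃ q ∈ t, q.1.2 = p.1.2 := by
    refine ⟨((Finset.range (m + 1)) ×ˢ (ht.toFinset.image (fun p => p.1.2))).subtype _, fun p => ?_⟩
    rw [Finset.mem_subtype, Finset.mem_product, Finset.mem_range, Finset.mem_image, Nat.lt_succ_iff]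
    simp only [Set.Finite.mem_toFinset]
  have htT : ∀ p ∈ t, p ∈ T := fun p hp => (hT p).2 ⟨hm p hp, p, hp, rfl⟩
  -- the values of the functions
  let em : ZP κ → PB κ := fun p => ⟨(p.1.1, (p.1.2 : ℂ)), p.2.1, le_trans (by norm_num) (hκ _ p.2.1), alg_coe p.2.2.2,
    Complex.ofReal_ne_zero.2 p.2.2.1.ne'⟩
  have hem : Function.Injective em := by
    intro p q h
    have h1 := congrArg (fun j : PB κ => j.1.1) h
    have h2 := congrArg (fun j : PB κ => j.1.2) h
    simp only [em, Complex.ofReal_inj] at h1 h2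
    exact Subtype.ext (Prod.ext h1 h2)
  have hE := (ai_E hFN κ).comp em hem
  have hmain := (hMC ℂ (FB κ) (ZP κ) _ hE).1 (ZP κ) (fun p : ZP κ => ((Zk p.1.1 p.1.2 : ℝ) : ℂ)) T T le_rfl (by
    obtain ⟨G, hG⟩ : ∃ G : IntermediateField (FB κ) ℂ, G = IntermediateField.adjoin (FB κ)
      ((fun p : ZP κ => ((Zk p.1.1 p.1.2 : ℝ) : ℂ)) '' (T : Set (ZP κ))) := ⟨_, rfl⟩
    rw [← hG]
    obtain ⟨N, hN⟩ : ∃ N : Subfield ℂ, N = (algebraicClosure G ℂ).toSubfield := ⟨_, rfl⟩
    obtain ⟨M, hM⟩ : ∃ M : Subfield ℝ, M = N.comap Complex.ofRealHom := ⟨_, rfl⟩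
    have hMN : ∀ x : ℝ, (x : ℂ) ∈ N → x ∈ M := fun x hx => by rw [hM]; exact hx
    have hNM : ∀ x : ℝ, x ∈ M → (x : ℂ) ∈ N := fun x hx => by rw [hM] at hx; exact hx
    have hGN : ∀ z ∈ G, z ∈ N := by
      intro z hz
      rw [hN]
      exact (algebraicClosure G ℂ).algebraMap_mem ⟨z, hz⟩
    have hFN' : ∀ z ∈ FB κ, z ∈ N := fun z hz => hGN z (G.algebraMap_mem ⟨z, hz⟩)
    have hZN : ∀ p ∈ T, Zk p.1.1 p.1.2 ∈ M := fun p hp => hMN _ (hGN _ (by
      rw [hG]
      exact IntermediateField.subset_adjoin _ _ ⟨p, hp, rfl⟩))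
    have hall : ∀ k : ℕ, ∀ p ∈ T, p.1.1 = k → EE k p.1.2 ∈ M := by
      intro k
      induction k using Nat.strong_induction_on with
      | _ k ih =>
        intro p hp hpk
        obtain ⟨h1, q, hq, hq2⟩ := (hT p).1 hp
        have hx : 0 < p.1.2 := p.2.2.1
        have hxa : IsAlgebraic ℚ p.1.2 := p.2.2.2
        refine E_mem hx ?_ (hpk ▸ hκ _ p.2.1) (fun l hl1 hlk => ?_) (hpk ▸ hZN p hp)
        · refine hMN _ (hFN' _ (mem_FB (Or.inl ⟨((-p.1.2 : ℝ) : ℂ), alg_coe hxa.neg, ?_⟩)))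
          push_cast
          rfl
        · by_cases hl : l ∈ κ
          · exact ih l hlk ⟨(l, p.1.2), hl, hx, hxa⟩ ((hT _).2 ⟨by show l ≤ m; omega, q, hq, hq2⟩) rfl
          · refine hMN _ ?_
            rw [EE_coe]
            exact hFN' _ (mem_FB (Or.inr ⟨l, 0, p.1.2, hl1, le_rfl, one_pos, fun h => hl h.2, alg_coe hxa, rfl⟩))
    intro p hp
    have h1 := hNM _ (hall _ p hp rfl)
    rw [EE_coe, hN] at h1
    exact mem_algebraicClosure_iff.1 h1)
  exact hmain.comp (fun p : t => (⟨p.1, htT p.1 p.2⟩ : T)) (fun p q h => Subtype.ext (by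
    have := congrArg (fun j : T => j.1) h
    exact this))

end Pool.Agent.P8H90.AP
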