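import Pool.Agent.R352.E.EF

/-!
# Project AP (MP_48b3e2_nt): definitions and statements of the packages

Goal: `IncompleteZetaValues` for all real algebraic `x > 0` and over the field generated by the exponentials of all
algebraic numbers. `K` is a field of characteristic zero (later a Galois number field with an embedding `ι` in `ℂ`).
-/

set_option autoImplicit false

open PowerSeries

namespace Pool.Agent.P8H90.AP

open Pool.Agent.R352.E (cf EF)
open Pool.Agent.Y113 (ev)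

section

variable {K : Type} [Field K]

/-- `exp (a X)` -/
noncomputable def ex (a : K) : K⟦X⟧ := PowerSeries.mk fun m => a ^ m / (m.factorial : K)

/-- `∑_{m ≥ 1} (-1)^(m-1) a^m X^m / (m! m^l)` -/
noncomputable def gl (l : ℕ) (a : K) : K⟦X⟧ :=
  PowerSeries.mk fun m => if m = 0 then 0 else -(-a) ^ m / ((m.factorial : K) * (m : K) ^ l)

/-- the monomials `exp (lam X) * ∏ gl (l + 1) (a) ^ s (l, a)` (`l < L`, `a ∈ S`); the index is `(lam, s)` -/
noncomputable def mon (S : Finset K) (L : ℕ) (p : K × ((Fin L × S) →₀ ℕ)) : K⟦X⟧ :=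
  ex p.1 * ∏ v : Fin L × S, gl (v.1.1 + 1) (v.2 : K) ^ p.2 v

/-- the E-functions over `K` (strict form, only one embedding of the coefficients) -/
def EFK (ι : K →+* ℂ) (y : K⟦X⟧) : Prop := ∃ C : ℝ, 1 ≤ C ∧
  (∀ m, ‖ι ((m.factorial : K) * coeff m y)‖ ≤ C ^ (m + 1)) ∧
  ∀ m, ∃ d : ℕ, 0 < d ∧ (d : ℝ) ≤ C ^ (m + 1) ∧ ∀ j ≤ m, IsIntegral ℤ ((d : K) * ((j.factorial : K) * coeff j y))

/-- the value at `1` -/
noncomputable def evK (ι : K →+* ℂ) (y : K⟦X⟧) : ℂ := ∑' m, ι (coeff m y)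

end

/-! ## Package TW (helper90): the monomials are linearly independent over `K[X]` -/

def S_TW : Prop := ∀ (K : Type) [Field K] [CharZero K] (S : Finset K) (L : ℕ), (0 : K) ∉ S →
  LinearIndependent (Polynomial K) (mon S L)

/-! ## Package EK: closure properties of the class `EFK` -/

/-- Proof as in `Pool.Agent.R352.E.EF` (`EF.mul`, `EF_ES`, `lcm_bound`): `j! coeff j (y z) = ∑ (j choose i) (i! y_i) ((j-i)! z_(j-i))`;
for `C a` (`a` algebraic) take `d` with `d a` integral; for `ex a`: `j! coeff = a ^ j`, `d = D ^ m`, `D a` integral; for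
`gl l a`: `j! coeff = -(-a)^j / j^l`, `d = D ^ m lcm(1..m) ^ l`. -/
def S_EK : Prop := ∀ (K : Type) [Field K] [CharZero K] (ι : K →+* ℂ), (∀ a : K, IsAlgebraic ℚ (ι a)) →
  (∀ y z : K⟦X⟧, EFK ι y → EFK ι z → EFK ι (y + z)) ∧
  (∀ y z : K⟦X⟧, EFK ι y → EFK ι z → EFK ι (y * z)) ∧
  (∀ a : K, EFK ι (C a)) ∧ (∀ a : K, EFK ι (ex a)) ∧ (∀ (l : ℕ) (a : K), EFK ι (gl l a))

/-! ## Package EV: values, and rational coefficients -/

/-- The coefficients of an `EFK` series satisfy `‖ι (coeff m y)‖ ≤ C ^ (m+1) / m!`, so the series converges absolutely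
(Cauchy product: `tsum_mul_tsum_eq_tsum_sum_antidiagonal_of_summable_norm`). Last two: for a rational number `r`,
`d r` integral over `ℤ` implies `d r ∈ ℤ` (`IsIntegrallyClosed`/`isInteger_of_isIntegral`), `ev 1 y₀ = ∑' (coeff m y₀ : ℝ) (1/1)^m`. -/
def S_EV : Prop := ∀ (K : Type) [Field K] [CharZero K] (ι : K →+* ℂ),
  (∀ y z : K⟦X⟧, EFK ι y → EFK ι z → evK ι (y + z) = evK ι y + evK ι z) ∧
  (∀ y z : K⟦X⟧, EFK ι y → EFK ι z → evK ι (y * z) = evK ι y * evK ι z) ∧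
  (∀ a : K, evK ι (C a) = ι a) ∧
  (∀ y₀ : ℚ⟦X⟧, EFK ι (PowerSeries.map (algebraMap ℚ K) y₀) → EF y₀) ∧
  (∀ y₀ : ℚ⟦X⟧, evK ι (PowerSeries.map (algebraMap ℚ K) y₀) = ((ev 1 y₀ : ℝ) : ℂ))

/-! ## Package DS: descent to the theorem of Siegel and Shidlovskii over `ℚ` -/

/-- Proof. Let `G = Gal(K/ℚ)` (`K ≃ₐ[ℚ] K`), `W = {y₀ : ℚ⟦X⟧ | map y₀ ∈ V}`, a `ℚ`-subspace of `ℚ⟦X⟧`. It is finite dimensional:
series over `ℚ` which are linearly independent over `ℚ` stay linearly independent over `K`. Let `Y` be a basis of `W` with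
`Y i₀ = 1`. (a) `Y` is linearly independent over `ℚ[X]`: `map (Y i)` is linearly independent over `K`, hence over `K[X]` by
`hLI`. (b) For `y₀ ∈ W`: `X * d⁄dX y₀ = a + X * b` with `a, b ∈ W`: over `K` this holds with `a, b ∈ V` by `hD`; apply the average
`(1/|G|) ∑ σ` to the coefficients of both sides (`hG`; the averages have coefficients fixed by `G`, so in `ℚ`). So
`X * d⁄dX (Y i) = ∑ (A i j + B i j X) Y j` with rational `A`, `B`; with a common denominator `q` this is `ESys.der`.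
(c) `EF (Y i)` by `hE` and `S_EV`, `EF.common`: `ESys q C Y`. Now `R352.E.E_lin`: the values `ev 1 (Y i)` are linearly
independent over `ℚ`; `y₀ = ∑ r i Y i`, `ev 1 y₀ = ∑ r i ev 1 (Y i)` (`Cv.ev_sum`, `EF.cv`), so `ev 1 y₀ = 0` implies `y₀ = 0`. -/
def S_DS : Prop := ∀ (K : Type) [Field K] [NumberField K] [IsGalois ℚ K] (ι : K →+* ℂ) (V : Submodule K K⟦X⟧),
  Module.Finite K V → (1 : K⟦X⟧) ∈ V →
  (∀ σ : K ≃ₐ[ℚ] K, ∀ y ∈ V, PowerSeries.map (σ : K →+* K) y ∈ V) →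
  (∀ y ∈ V, ∃ a ∈ V, ∃ b ∈ V, X * d⁄dX K y = a + X * b) →
  (∀ (N : ℕ) (y : Fin N → K⟦X⟧), (∀ i, y i ∈ V) → LinearIndependent K y → LinearIndependent (Polynomial K) y) →
  (∀ y ∈ V, EFK ι y) →
  ∀ y₀ : ℚ⟦X⟧, y₀ ≠ 0 → PowerSeries.map (algebraMap ℚ K) y₀ ∈ V → ev 1 y₀ ≠ 0

/-! ## Package NM (helper90): values of combinations of monomials, by the norm -/

def S_NM : Prop := ∀ (K : Type) [Field K] [NumberField K] [IsGalois ℚ K] (ι : K →+* ℂ) (S : Finset K) (L : ℕ),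
  (0 : K) ∉ S → (∀ σ : K ≃ₐ[ℚ] K, ∀ a ∈ S, σ a ∈ S) →
  ∀ v ∈ Submodule.span K (Set.range (mon S L)), v ≠ 0 → evK ι v ≠ 0

end Pool.Agent.P8H90.AP
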