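import Pool.Agent.P8H90.AP.Defs

/-!
# Project AP, part 2: the functions `E_(b,l)` and the statements of the packages
-/

set_option autoImplicit false

open PowerSeries

namespace Pool.Agent.P8H90.AP

section

variable {K : Type} [Field K]

/-- `∑_{m ≥ 1} (-1)^(m-1) a^m X^m / (m! (m + b)^l)` -/
noncomputable def ga (b : ℚ) (l : ℕ) (a : K) : K⟦X⟧ :=
  PowerSeries.mk fun m => if m = 0 then 0 else -(-a) ^ m / ((m.factorial : K) * ((m : K) + (b : K)) ^ l)

/-- the monomials `exp (lam X) * ∏ ga b (l + 1) (a) ^ s (l, (b, a))` (`l < L`, `(b, a) ∈ T`); the index is `(lam, s)` -/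
noncomputable def monA (T : Finset (ℚ × K)) (L : ℕ) (p : K × ((Fin L × T) →₀ ℕ)) : K⟦X⟧ :=
  ex p.1 * ∏ v : Fin L × T, ga v.2.1.1 (v.1.1 + 1) v.2.1.2 ^ p.2 v

end

/-! ## Package TWA: the monomials are linearly independent over `K[X]` (model: Mon.lean, Tower.lean, TowerB.lean) -/

def S_TWA : Prop := ∀ (K : Type) [Field K] [CharZero K] (T : Finset (ℚ × K)) (L : ℕ),
  (∀ t ∈ T, 0 ≤ t.1 ∧ t.1 < 1 ∧ t.2 ≠ 0) → LinearIndependent (Polynomial K) (monA T L)

/-! ## Package EKA: `ga b l a` is in the class `EFK` (model: `EFK.gl` in Pool/Agent/P8H44/AP/EK.lean) -/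

def S_EKA : Prop := ∀ (K : Type) [Field K] [CharZero K] (ι : K →+* ℂ), (∀ a : K, IsAlgebraic ℚ (ι a)) →
  ∀ (b : ℚ) (l : ℕ) (a : K), 0 ≤ b → EFK ι (ga b l a)

/-! ## Package NMA (helper90): values of combinations of monomials, by the norm -/

def S_NMA : Prop := ∀ (K : Type) [Field K] [NumberField K] [IsGalois ℚ K] (ι : K →+* ℂ) (T : Finset (ℚ × K)) (L : ℕ),
  (∀ t ∈ T, 0 ≤ t.1 ∧ t.1 < 1 ∧ t.2 ≠ 0) → (∀ σ : K ≃ₐ[ℚ] K, ∀ t ∈ T, (t.1, σ t.2) ∈ T) →
  ∀ v ∈ Submodule.span K (Set.range (monA T L)), v ≠ 0 → evK ι v ≠ 0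

/-! ## Package FNA: algebraic independence of the values -/

/-- `E_(b,l)(z) = ∑_{m ≥ 1} (-1)^(m-1) z^m / (m! (m + b)^l)` -/
noncomputable def Ea (b : ℚ) (l : ℕ) (z : ℂ) : ℂ :=
  ∑' m : ℕ, if m = 0 then 0 else -(-z) ^ m / ((m.factorial : ℂ) * ((m : ℂ) + (b : ℂ)) ^ l)

/-- the indices `(l, b, z)`, standing for the function `E_(b,l+1)` at the point `z` -/
abbrev JA : Type := {p : ℕ × ℚ × ℂ // 0 ≤ p.2.1 ∧ p.2.1 < 1 ∧ IsAlgebraic ℚ p.2.2 ∧ p.2.2 ≠ 0}

/-- the values -/
noncomputable def valA (j : JA) : ℂ := Ea j.1.2.1 (j.1.1 + 1) j.1.2.2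

/-- Proof from `S_TWA`, `S_NMA`, `S_EKA`. Let `P ≠ 0` be a rational polynomial with `aeval P = 0`, `V = P.vars`, `M` the product of
the minimal polynomials of the `β i` (`inl i ∈ V`) and of the `z` (`inr (l, b, z) ∈ V`), `K = adjoin ℚ (M.rootSet ℂ)`
(`IntermediateField.adjoin_rootSet_isSplittingField`, normal, `NumberField`, `IsGalois`), `T` all pairs `(b, a)`, `b` one of the
`b`'s in `V` and `a` a nonzero root of `M` in `K`; `L > l` for all `l` in `V`. For an exponent `s` in the support of `P` let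
`lam s = ∑ s (inl i) β i`, `u s (l, (b, a)) = s (inr (l, b, a))`. The indices `(lam s, u s)` are distinct (`β` is linearly
independent over `ℚ`), so `v = ∑ coeff s P • monA T L (lam s, u s) ≠ 0` by `S_TWA`, and
`evK ι v = ∑ coeff s P * exp (lam s) ∏ Ea ... ^ ... = aeval P = 0` by `S_EV`, a contradiction to `S_NMA`. -/
def S_FNA : Prop := ∀ (I : Type) (β : I → ℂ), (∀ i, IsAlgebraic ℚ (β i)) → LinearIndependent ℚ β →
  AlgebraicIndependent ℚ (Sum.elim (fun i => Complex.exp (β i)) valA)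

/-! ## Package MC: counting with the matroid of algebraic independence over a subfield -/

/-- Copy of Pool/Agent/P8H10/MatF.lean and of the last section (`count0`, `mem_empty`, `countK`, `trdegK`, `AI_diff`) of
Pool/Agent/P8H73/PZ/Beyond.lean with an arbitrary field `E` in place of `ℝ`, and with a family `v i` in place of a number `v`. -/
def S_MC : Prop := ∀ (E : Type) [Field E] (F : Subfield E) (ι : Type) (z : ι → E), AlgebraicIndependent F z →
  (∀ (κ : Type) (y : κ → E) (s : Finset κ) (t : Finset ι), s.card ≤ t.card →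
    (∀ i ∈ t, IsAlgebraic (IntermediateField.adjoin F (y '' (s : Set κ))) (z i)) →
    AlgebraicIndependent F (fun k : s => y k)) ∧
  ∀ (v : ι → E) (r : ℕ) (y : Fin r → E), (∀ i, IsAlgebraic (IntermediateField.adjoin F (Set.range y)) (v i)) →
    {i : Fin r ⊕ ι | IsAlgebraic F (Sum.elim y (fun i => v i - z i) i)}.encard ≤ (r : ℕ∞) ∧
    (∀ S : Finset ι, (S.card : Cardinal) ≤ Algebra.trdeg F (IntermediateField.adjoin F
      (Set.range y ∪ (fun i => v i - z i) '' (S : Set ι)))) ∧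
    (∀ S : Finset ι, (S.card : Cardinal) ≤ Algebra.trdeg F (IntermediateField.adjoin F
      ((fun i => v i - z i) '' (S : Set ι))) + r) ∧
    ((∀ i, IsAlgebraic F (v i)) → AlgebraicIndependent F (fun i => v i - z i))

end Pool.Agent.P8H90.AP
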