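import Pool.Agent.P8H90.AP.Base

/-!
# Project AP: counting, and the constants `π, ζ(3), …`
-/

set_option autoImplicit false

open Set

namespace Pool.Agent.P8H90.AP

open Pool.Agent.R352.Q (Zk)
open Pool.Agent.R352.E (zt)

section

variable {E : Type} [Field E] {F : Subfield E}

lemma adj_mem {S : Set E} {z : E} (h : z ∈ S) : IsAlgebraic (IntermediateField.adjoin F S) z :=
  isAlgebraic_algebraMap (A := E) (⟨z, IntermediateField.subset_adjoin F S h⟩ : IntermediateField.adjoin F S)

end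

lemma alg_up {E : Type} [Field E] {F : Subfield E} (S : Set E) {z : E} (h : IsAlgebraic F z) :
    IsAlgebraic (IntermediateField.adjoin F S) z :=
  h.extendScalars (algebraMap F (IntermediateField.adjoin F S)).injective

/-- even zeta values -/
lemma even_alg (M : Subfield ℂ) (hpi : (Real.pi : ℂ) ∈ M) (k : ℕ) (hk : k ≠ 0) : ((zt (2 * k) : ℝ) : ℂ) ∈ M := by
  have h1 := hasSum_zeta_nat hk
  have h2 : zt (2 * k) =
      (-1 : ℝ) ^ (k + 1) * (2 : ℝ) ^ (2 * k - 1) * Real.pi ^ (2 * k) * bernoulli (2 * k) / (2 * k).factorial := by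
    rw [← h1.tsum_eq, zt]
    have hs : Summable (fun n : ℕ => 1 / (n : ℝ) ^ (2 * k)) := h1.summable
    rw [← hs.sum_add_tsum_nat_add 1]
    simp only [Finset.sum_range_succ, Finset.sum_range_zero, zero_add]
    have h0 : (0 : ℝ) ^ (2 * k) = 0 := zero_pow (by omega)
    rw [Nat.cast_zero, h0, div_zero, zero_add]
    refine tsum_congr fun n => ?_
    push_cast
    rfl
  rw [h2]
  push_cast
  refine M.div_mem (M.mul_mem (M.mul_mem (M.mul_mem ?_ ?_) (M.pow_mem hpi _)) ?_) (natCast_mem M _)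
  · exact M.pow_mem (M.neg_mem M.one_mem) _
  · refine M.pow_mem ?_ _
    exact_mod_cast natCast_mem M 2
  · exact SubfieldClass.ratCast_mem M _

/-- the numbers `π, ζ(3), ζ(5), …, ζ(2c+1)` -/
noncomputable def consts (c : ℕ) : Fin (c + 1) → ℝ := Fin.cons Real.pi fun i : Fin c => zt (2 * i + 3)

/-- the numbers `ζ(k)`, `k` even or `k ≤ 2c + 1`, are algebraic over the field generated by `π, ζ(3), …, ζ(2c + 1)` -/
lemma constants_alg (F : Subfield ℂ) {c k : ℕ} (hk : 2 ≤ k) (h : Even k ∨ k ≤ 2 * c + 1) :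
    IsAlgebraic (IntermediateField.adjoin F (range fun i => ((consts c i : ℝ) : ℂ))) ((zt k : ℝ) : ℂ) := by
  have hpi : (Real.pi : ℂ) ∈ (IntermediateField.adjoin F (range fun i => ((consts c i : ℝ) : ℂ))).toSubfield :=
    IntermediateField.subset_adjoin F _ ⟨0, rfl⟩
  rcases Nat.even_or_odd' k with ⟨j, rfl | rfl⟩
  · have := even_alg _ hpi j (by omega)
    exact isAlgebraic_algebraMap (A := ℂ) (⟨_, this⟩ : IntermediateField.adjoin F (range fun i => ((consts c i : ℝ) : ℂ)))
  · have h1 : 2 * j + 1 ≤ 2 * c + 1 := by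
      rcases h with h | h
      · exact absurd h (by simp)
      · exact h
    refine adj_mem ⟨Fin.succ ⟨j - 1, by omega⟩, ?_⟩
    simp only [consts, Fin.cons_succ]
    congr 2
    omega

end Pool.Agent.P8H90.AP
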