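import Mathlib

/-!
# Two lemmas on polynomials: logarithmic derivatives and residues
-/

set_option autoImplicit false

open Polynomial

namespace Pool.Agent.P8H90.AP

variable {K : Type} [Field K] [CharZero K]

/-- the coefficient of `r0 r1' - r1 r0'` in the degree `d0 + d1 - 1` -/
lemma coeff_wr {r0 r1 : K[X]} {d0 d1 : ℕ} (h0 : r0.natDegree = d0) (h1 : r1.natDegree = d1) (hd : 1 ≤ d0 + d1) :
    (r0 * derivative r1 - r1 * derivative r0).coeff (d0 + d1 - 1) =
      ((d1 : K) - d0) * (r0.leadingCoeff * r1.leadingCoeff) := by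
  have key : ∀ (p q : K[X]) (a b : ℕ), p.natDegree = a → q.natDegree = b → 1 ≤ a + b →
      (p * derivative q).coeff (a + b - 1) = (b : K) * (p.leadingCoeff * q.leadingCoeff) := by
    intro p q a b hp hq hab
    rcases Nat.eq_zero_or_pos b with hb | hb
    · have : derivative q = 0 := by
        rw [eq_C_of_natDegree_le_zero (show q.natDegree ≤ 0 by omega), derivative_C]
      rw [this, hb]
      simp
    · have e : a + b - 1 = a + (b - 1) := by omega
      rw [e, coeff_mul_add_eq_of_natDegree_le (by omega) (by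
        have := natDegree_derivative_le q
        omega), coeff_derivative, Nat.sub_add_cancel hb, leadingCoeff, leadingCoeff, hp, hq]
      have : ((b - 1 : ℕ) : K) + 1 = b := by
        rw [Nat.cast_sub hb]; simp
      rw [this]
      ring
  rw [coeff_sub, key r0 r1 d0 d1 h0 h1 hd]
  have := key r1 r0 d1 d0 h1 h0 (by omega)
  rw [show d1 + d0 - 1 = d0 + d1 - 1 by omega] at this
  rw [this]
  ring

lemma natDegree_eq_of_wr {r0 r1 : K[X]} (h0 : r0 ≠ 0) (h1 : r1 ≠ 0)
    (h : r0 * derivative r1 - r1 * derivative r0 = 0) : r1.natDegree = r0.natDegree := by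
  by_contra hne
  have h2 := coeff_wr (r0 := r0) (r1 := r1) rfl rfl (by omega)
  rw [h, coeff_zero] at h2
  rcases mul_eq_zero.1 h2.symm with h3 | h3
  · apply hne
    have : (r1.natDegree : K) = r0.natDegree := by linear_combination h3
    exact_mod_cast this
  · rcases mul_eq_zero.1 h3 with h4 | h4
    · exact h0 (leadingCoeff_eq_zero.1 h4)
    · exact h1 (leadingCoeff_eq_zero.1 h4)

lemma prop_of_wr {r0 r1 : K[X]} (h0 : r0 ≠ 0) (h : r0 * derivative r1 - r1 * derivative r0 = 0) :
    ∃ κ : K, r1 = C κ * r0 := by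
  by_cases h1 : r1 = 0
  · exact ⟨0, by rw [h1, C_0, zero_mul]⟩
  have hd := natDegree_eq_of_wr h0 h1 h
  refine ⟨r1.leadingCoeff / r0.leadingCoeff, ?_⟩
  set κ := r1.leadingCoeff / r0.leadingCoeff with hκ
  have hl0 : r0.leadingCoeff ≠ 0 := leadingCoeff_ne_zero.2 h0
  have hl1 : r1.leadingCoeff ≠ 0 := leadingCoeff_ne_zero.2 h1
  have hκ0 : κ ≠ 0 := div_ne_zero hl1 hl0
  by_contra hne
  have h2 : r1 - C κ * r0 ≠ 0 := sub_ne_zero.2 hne
  have h3 : r0 * derivative (r1 - C κ * r0) - (r1 - C κ * r0) * derivative r0 = 0 := by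
    rw [derivative_sub, derivative_C_mul]
    linear_combination h
  have h4 := natDegree_eq_of_wr h0 h2 h3
  have h5 : (r1 - C κ * r0).degree < r1.degree := by
    apply degree_sub_lt
    · rw [degree_C_mul hκ0, degree_eq_natDegree h0, degree_eq_natDegree h1, hd]
    · exact h1
    · rw [leadingCoeff_mul, leadingCoeff_C, hκ]
      field_simp
  rw [degree_eq_natDegree h2, degree_eq_natDegree h1, h4, hd] at h5
  exact lt_irrefl _ h5

/-- a rational function with `r' / r` constant is constant -/
lemma poly1 {r0 r1 : K[X]} {μ : K} (h0 : r0 ≠ 0) (h1 : r1 ≠ 0)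
    (h : r0 * (X * derivative r1) - r1 * (X * derivative r0) + C μ * X * r0 * r1 = 0) :
    μ = 0 ∧ ∃ κ : K, r1 = C κ * r0 := by
  have h2 : r0 * derivative r1 - r1 * derivative r0 + C μ * (r0 * r1) = 0 := by
    apply mul_left_cancel₀ (X_ne_zero (R := K))
    rw [mul_zero]
    linear_combination h
  have hμ : μ = 0 := by
    by_contra hμ
    have h3 := congrArg (fun p => p.coeff (r0.natDegree + r1.natDegree)) h2
    simp only [coeff_add, coeff_C_mul, coeff_zero] at h3
    have h4 : (r0 * r1).coeff (r0.natDegree + r1.natDegree) = r0.leadingCoeff * r1.leadingCoeff :=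
      coeff_mul_degree_add_degree r0 r1
    have key : ∀ p q : K[X], (p * derivative q).coeff (p.natDegree + q.natDegree) = 0 := by
      intro p q
      by_cases hq : q.natDegree = 0
      · have : derivative q = 0 := by
          rw [eq_C_of_natDegree_le_zero (show q.natDegree ≤ 0 by omega), derivative_C]
        rw [this]; simp
      · apply coeff_eq_zero_of_natDegree_lt
        have h5 := natDegree_mul_le (p := p) (q := derivative q)
        have h6 := natDegree_derivative_lt hq
        omega
    have h5 : (r0 * derivative r1 - r1 * derivative r0).coeff (r0.natDegree + r1.natDegree) = 0 := by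
      rw [coeff_sub, key r0 r1, add_comm r0.natDegree, key r1 r0, sub_zero]
    rw [h5, h4, zero_add] at h3
    rcases mul_eq_zero.1 h3 with h6 | h6
    · exact hμ h6
    · rcases mul_eq_zero.1 h6 with h7 | h7
      · exact h0 (leadingCoeff_eq_zero.1 h7)
      · exact h1 (leadingCoeff_eq_zero.1 h7)
  refine ⟨hμ, prop_of_wr h0 ?_⟩
  rw [hμ, C_0, zero_mul, add_zero] at h2
  exact h2

/-- no rational function `r` satisfies `X r' + μ X r = - κ`, `κ ≠ 0` -/
lemma poly2 {μ κ : K} : ∀ (n : ℕ) (r0 r : K[X]), r0.natDegree = n → r0 ≠ 0 →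
    r0 * (X * derivative r) - r * (X * derivative r0) + C μ * X * r0 * r + C κ * r0 ^ 2 = 0 → κ = 0 := by
  intro n
  induction n using Nat.strong_induction_on with
  | _ n ih =>
    intro r0 r hn h0 h
    by_cases hc : r0.coeff 0 = 0
    · obtain ⟨q1, hq1⟩ := X_dvd_iff.2 hc
      have hq10 : q1 ≠ 0 := by rintro rfl; exact h0 (by rw [hq1, mul_zero])
      -- `r0 = X ^ k q`
      obtain ⟨k, q, hq, hkq⟩ : ∃ (k : ℕ) (q : K[X]), q.coeff 0 ≠ 0 ∧ r0 = X ^ (k + 1) * q := by
        obtain ⟨q, hq, hnd⟩ := exists_eq_pow_rootMultiplicity_mul_and_not_dvd r0 h0 0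
        rw [C_0, sub_zero] at hq hnd
        have hq0 : q.coeff 0 ≠ 0 := fun h3 => hnd (X_dvd_iff.2 h3)
        have hk : rootMultiplicity 0 r0 ≠ 0 := by
          intro h3
          rw [h3, pow_zero, one_mul] at hq
          rw [← hq] at hq0
          exact hq0 hc
        obtain ⟨k, hk⟩ := Nat.exists_eq_succ_of_ne_zero hk
        exact ⟨k, q, hq0, by rw [← Nat.succ_eq_add_one, ← hk]; exact hq⟩
      have h3 : X ^ (k + 1) * (q * (X * derivative r) - r * (C ((k : K) + 1) * q + X * derivative q) +
          C μ * X * q * r + C κ * X ^ (k + 1) * q ^ 2) = 0 := by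
        have e : derivative r0 = C ((k : K) + 1) * X ^ k * q + X ^ (k + 1) * derivative q := by
          rw [hkq, derivative_mul, derivative_X_pow]
          push_cast
          simp
        rw [e, hkq] at h
        rw [← h]
        ring
      have h4 := (mul_eq_zero.1 h3).resolve_left (pow_ne_zero _ X_ne_zero)
      have h5 := congrArg (eval 0) h4
      simp only [eval_add, eval_sub, eval_mul, eval_X, eval_C, eval_pow, zero_mul, mul_zero, eval_zero, add_zero,
        zero_sub, ne_eq, Nat.add_eq_zero_iff, one_ne_zero, and_false, not_false_eq_true, zero_pow] at h5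
      have h6 : (r.coeff 0) = 0 := by
        have h7 : eval 0 r * (((k : K) + 1) * eval 0 q) = 0 := by linear_combination -h5
        rcases mul_eq_zero.1 h7 with h8 | h8
        · rwa [← coeff_zero_eq_eval_zero] at h8
        · exfalso
          rcases mul_eq_zero.1 h8 with h9 | h9
          · exact Nat.cast_add_one_ne_zero k h9
          · rw [← coeff_zero_eq_eval_zero] at h9
            exact hq h9
      obtain ⟨t, ht⟩ := X_dvd_iff.2 h6
      have hdeg : q1.natDegree < n := by
        rw [← hn, hq1, natDegree_X_mul hq10]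
        omega
      refine ih _ hdeg q1 t rfl hq10 ?_
      have h7 : X ^ 2 * (q1 * (X * derivative t) - t * (X * derivative q1) + C μ * X * q1 * t + C κ * q1 ^ 2) = 0 := by
        rw [hq1, ht] at h
        simp only [derivative_mul, derivative_X, one_mul] at h
        linear_combination h
      exact (mul_eq_zero.1 h7).resolve_left (pow_ne_zero _ X_ne_zero)
    · have h5 := congrArg (eval 0) h
      simp only [eval_add, eval_sub, eval_mul, eval_X, eval_C, eval_pow, zero_mul, mul_zero, eval_zero,
        sub_self, zero_add] at h5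
      rw [← coeff_zero_eq_eval_zero] at h5
      rcases mul_eq_zero.1 h5 with h6 | h6
      · exact h6
      · exact absurd (pow_eq_zero_iff (two_ne_zero)|>.1 h6) hc

end Pool.Agent.P8H90.AP
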