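import Pool.Agent.P8H90.AP.Defs
import Pool.Agent.P8H90.AP.Poly

/-!
# Project AP: the derivation `X d/dX` on the monomials
-/

set_option autoImplicit false

open PowerSeries

namespace Pool.Agent.P8H90.AP

section

variable {K : Type} [Field K]

/-- the derivation `X d/dX` -/
noncomputable def th (f : K⟦X⟧) : K⟦X⟧ := X * d⁄dX K f

lemma th_add (f g : K⟦X⟧) : th (f + g) = th f + th g := by
  unfold th
  rw [map_add, mul_add]

lemma th_zero : th (0 : K⟦X⟧) = 0 := by
  unfold th
  rw [map_zero, mul_zero]

lemma th_mul (f g : K⟦X⟧) : th (f * g) = th f * g + f * th g := by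
  unfold th
  rw [Derivation.leibniz]
  simp only [smul_eq_mul]
  ring

lemma th_one : th (1 : K⟦X⟧) = 0 := by
  unfold th
  rw [Derivation.map_one_eq_zero, mul_zero]

lemma th_pow (f : K⟦X⟧) (n : ℕ) : th (f ^ n) = (n : K⟦X⟧) * th f * f ^ (n - 1) := by
  unfold th
  rw [Derivation.leibniz_pow]
  simp only [smul_eq_mul, nsmul_eq_mul]
  ring

lemma th_coe (p : Polynomial K) : th (p : K⟦X⟧) = ((Polynomial.X * Polynomial.derivative p : Polynomial K) : K⟦X⟧) := by
  unfold th
  rw [derivative_coe, Polynomial.coe_mul, Polynomial.coe_X]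

lemma th_sum {ι : Type} (s : Finset ι) (f : ι → K⟦X⟧) : th (∑ i ∈ s, f i) = ∑ i ∈ s, th (f i) := by
  unfold th
  rw [map_sum, Finset.mul_sum]

variable [CharZero K]

lemma ex_eq (a : K) : ex a = rescale a (PowerSeries.exp K) := by
  ext n
  rw [ex, coeff_mk, coeff_rescale, coeff_exp]
  simp [div_eq_mul_inv]

lemma ex_add (a b : K) : ex (a + b) = ex a * ex b := by
  rw [ex_eq, ex_eq, ex_eq, exp_mul_exp_eq_exp_add]

lemma ex_zero : ex (0 : K) = 1 := by
  ext n
  rw [ex, coeff_mk, coeff_one]
  split_ifs with h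
  · rw [h]; simp
  · rw [zero_pow h, zero_div]

lemma ex_ne (a : K) : ex a ≠ 0 := by
  intro h
  have := congrArg (coeff 0) h
  simp [ex] at this

lemma fac_ne (n : ℕ) : (n.factorial : K) ≠ 0 := by exact_mod_cast n.factorial_ne_zero

lemma th_ex (a : K) : th (ex a) = (C a * X) * ex a := by
  unfold th
  have h : d⁄dX K (ex a) = C a * ex a := by
    ext n
    rw [coeff_derivative, coeff_C_mul, ex, coeff_mk, coeff_mk, Nat.factorial_succ]
    have h1 := fac_ne (K := K) n
    have h2 : ((n : K) + 1) ≠ 0 := Nat.cast_add_one_ne_zero n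
    push_cast
    field_simp
    ring
  rw [h]
  ring

lemma gl_zero (a : K) : gl 0 a = 1 - ex (-a) := by
  ext n
  rw [map_sub, gl, ex, coeff_mk, coeff_mk, coeff_one]
  split_ifs with h
  · rw [h]; simp
  · rw [pow_zero, mul_one]; ring

lemma th_gl (l : ℕ) (a : K) : th (gl (l + 1) a) = gl l a := by
  unfold th
  ext n
  rcases n with _ | n
  · rw [coeff_zero_X_mul, gl, coeff_mk, if_pos rfl]
  · rw [coeff_succ_X_mul, coeff_derivative, gl, gl, coeff_mk, coeff_mk, if_neg (Nat.succ_ne_zero n),
      if_neg (Nat.succ_ne_zero n)]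
    have h1 := fac_ne (K := K) (n + 1)
    have h2 : ((n : K) + 1) ≠ 0 := Nat.cast_add_one_ne_zero n
    push_cast
    field_simp
    ring

end

section

variable {K : Type} [Field K] [CharZero K] (S : Finset K) (L : ℕ)

/-- the functions -/
noncomputable def yy (v : Fin L × S) : K⟦X⟧ := gl (v.1.1 + 1) (v.2 : K)

/-- the product of the powers -/
noncomputable def pp (s : (Fin L × S) →₀ ℕ) : K⟦X⟧ := ∏ v, yy S L v ^ s v

lemma mon_eq (p : K × ((Fin L × S) →₀ ℕ)) : mon S L p = ex p.1 * pp S L p.2 := rfl

lemma pp_zero : pp S L 0 = 1 := by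
  unfold pp
  simp

lemma pp_add (s t : (Fin L × S) →₀ ℕ) : pp S L (s + t) = pp S L s * pp S L t := by
  unfold pp
  rw [← Finset.prod_mul_distrib]
  exact Finset.prod_congr rfl fun v _ => by rw [Finsupp.add_apply, pow_add]

lemma pp_single (v : Fin L × S) : pp S L (Finsupp.single v 1) = yy S L v := by
  classical
  unfold pp
  rw [Finset.prod_eq_single v]
  · rw [Finsupp.single_eq_same, pow_one]
  · intro w _ hw
    rw [Finsupp.single_apply, if_neg hw.symm, pow_zero]
  · intro h; exact absurd (Finset.mem_univ v) h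

lemma mon_mul (lam mu : K) (s t : (Fin L × S) →₀ ℕ) :
    mon S L (lam, s) * mon S L (mu, t) = mon S L (lam + mu, s + t) := by
  rw [mon_eq, mon_eq, mon_eq, ex_add, pp_add]
  ring

lemma mon_zero : mon S L (0, 0) = 1 := by
  rw [mon_eq, ex_zero, pp_zero, one_mul]

/-- the predecessor -/
def pr (v : Fin L × S) : Fin L × S := (⟨v.1.1 - 1, by have := v.1.2; omega⟩, v.2)

lemma th_yy (v : Fin L × S) : th (yy S L v) =
    if v.1.1 = 0 then 1 - ex (-(v.2 : K)) else yy S L (pr S L v) := by
  unfold yy
  rw [th_gl]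
  split_ifs with h
  · rw [h, gl_zero]
  · have : (pr S L v).1.1 + 1 = v.1.1 := by unfold pr; simp only; omega
    rw [this]
    rfl

/-- the derivative of a product of powers -/
lemma th_pp (s : (Fin L × S) →₀ ℕ) : th (pp S L s) =
    ∑ v, (s v : K⟦X⟧) * (th (yy S L v) * pp S L (s - Finsupp.single v 1)) := by
  classical
  induction s using Finsupp.induction_linear with
  | zero => rw [pp_zero, th_one]; simp
  | add s t hs ht =>
    rw [pp_add, th_mul, hs, ht, Finset.sum_mul, Finset.mul_sum, ← Finset.sum_add_distrib]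
    refine Finset.sum_congr rfl fun v _ => ?_
    have e1 : s v ≠ 0 → pp S L (s + t - Finsupp.single v 1) = pp S L (s - Finsupp.single v 1) * pp S L t := by
      intro h
      rw [← pp_add]
      congr 1
      ext w
      simp only [Finsupp.add_apply, Finsupp.tsub_apply, Finsupp.single_apply]
      split_ifs with hw
      · subst hw; omega
      · omega
    have e2 : t v ≠ 0 → pp S L (s + t - Finsupp.single v 1) = pp S L s * pp S L (t - Finsupp.single v 1) := by
      intro h
      rw [← pp_add]
      congr 1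
      ext w
      simp only [Finsupp.add_apply, Finsupp.tsub_apply, Finsupp.single_apply]
      split_ifs with hw
      · subst hw; omega
      · omega
    rw [Finsupp.add_apply]
    by_cases h1 : s v = 0
    · by_cases h2 : t v = 0
      · simp [h1, h2]
      · rw [h1, e2 h2]; push_cast; ring
    · by_cases h2 : t v = 0
      · rw [h2, e1 h1]; push_cast; ring
      · have e3 := e1 h1
        have e4 := e2 h2
        push_cast
        linear_combination ((-(s v : K⟦X⟧)) * th (yy S L v)) * e3 + (-(t v : K⟦X⟧) * th (yy S L v)) * e4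
  | single v n =>
    have key : ∀ n : ℕ, pp S L (Finsupp.single v n) = yy S L v ^ n := by
      intro n
      unfold pp
      rw [Finset.prod_eq_single v]
      · rw [Finsupp.single_eq_same]
      · intro w _ hw
        rw [Finsupp.single_apply, if_neg hw.symm, pow_zero]
      · intro h; exact absurd (Finset.mem_univ v) h
    rw [key, th_pow, Finset.sum_eq_single v]
    · rw [Finsupp.single_eq_same, ← Finsupp.single_tsub, key]
      ring
    · intro w _ hw
      rw [Finsupp.single_apply, if_neg hw.symm]
      simp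
    · intro h; exact absurd (Finset.mem_univ v) h

end

end Pool.Agent.P8H90.AP
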