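import Pool.Agent.P8H90.AP.DefsA
import Pool.Agent.P8H90.AP.Mon

/-!
# Project AP, part 2: the derivation `X d/dX` on the monomials
-/

set_option autoImplicit false

open PowerSeries

namespace Pool.Agent.P8H90.AP

section

variable {K : Type} [Field K] [CharZero K]

lemma ga_zero (b : ℚ) (a : K) : ga b 0 a = 1 - ex (-a) := by
  ext n
  rw [map_sub, ga, ex, coeff_mk, coeff_mk, coeff_one]
  split_ifs with h
  · rw [h]; simp
  · rw [pow_zero, mul_one]; ring

lemma th_ga (b : ℚ) (hb : 0 ≤ b) (l : ℕ) (a : K) : th (ga b (l + 1) a) = ga b l a - C (b : K) * ga b (l + 1) a := by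
  unfold th
  ext n
  rcases n with _ | n
  · rw [coeff_zero_X_mul, map_sub, coeff_C_mul, ga, ga, coeff_mk, coeff_mk, if_pos rfl, if_pos rfl]
    simp
  · rw [coeff_succ_X_mul, coeff_derivative, map_sub, coeff_C_mul, ga, ga, coeff_mk, coeff_mk,
      if_neg (Nat.succ_ne_zero n), if_neg (Nat.succ_ne_zero n)]
    have h1 := fac_ne (K := K) (n + 1)
    have h2 : (((n + 1 : ℕ) : K) + (b : K)) ≠ 0 := by
      have h3 : (((n + 1 : ℕ) : ℚ) + b) ≠ 0 := by positivity
      exact_mod_cast h3
    push_cast at h2 ⊢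
    field_simp
    ring

end

section

variable {K : Type} [Field K] [CharZero K] (T : Finset (ℚ × K)) (L : ℕ)

/-- the functions -/
noncomputable def yA (v : Fin L × T) : K⟦X⟧ := ga v.2.1.1 (v.1.1 + 1) v.2.1.2

/-- the product of the powers -/
noncomputable def pA (s : (Fin L × T) →₀ ℕ) : K⟦X⟧ := ∏ v, yA T L v ^ s v

lemma monA_eq (p : K × ((Fin L × T) →₀ ℕ)) : monA T L p = ex p.1 * pA T L p.2 := rfl

lemma pA_zero : pA T L 0 = 1 := by
  unfold pA
  simp

lemma pA_add (s t : (Fin L × T) →₀ ℕ) : pA T L (s + t) = pA T L s * pA T L t := by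
  unfold pA
  rw [← Finset.prod_mul_distrib]
  exact Finset.prod_congr rfl fun v _ => by rw [Finsupp.add_apply, pow_add]

lemma pA_single (v : Fin L × T) : pA T L (Finsupp.single v 1) = yA T L v := by
  classical
  unfold pA
  rw [Finset.prod_eq_single v]
  · rw [Finsupp.single_eq_same, pow_one]
  · intro w _ hw
    rw [Finsupp.single_apply, if_neg hw.symm, pow_zero]
  · intro h; exact absurd (Finset.mem_univ v) h

lemma monA_mul (lam mu : K) (s t : (Fin L × T) →₀ ℕ) :
    monA T L (lam, s) * monA T L (mu, t) = monA T L (lam + mu, s + t) := by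
  rw [monA_eq, monA_eq, monA_eq, ex_add, pA_add]
  ring

lemma monA_zero : monA T L (0, 0) = 1 := by
  rw [monA_eq, ex_zero, pA_zero, one_mul]

/-- the predecessor -/
def prA (v : Fin L × T) : Fin L × T := (⟨v.1.1 - 1, by have := v.1.2; omega⟩, v.2)

lemma th_yA (v : Fin L × T) (hv : 0 ≤ v.2.1.1) : th (yA T L v) =
    (if v.1.1 = 0 then 1 - ex (-v.2.1.2) else yA T L (prA T L v)) - C (v.2.1.1 : K) * yA T L v := by
  unfold yA
  rw [th_ga _ hv]
  split_ifs with h
  · rw [h, ga_zero]
  · have : (prA T L v).1.1 + 1 = v.1.1 := by unfold prA; simp only; omega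
    rw [this]
    rfl

/-- the derivative of a product of powers -/
lemma th_pA (s : (Fin L × T) →₀ ℕ) : th (pA T L s) =
    ∑ v, (s v : K⟦X⟧) * (th (yA T L v) * pA T L (s - Finsupp.single v 1)) := by
  classical
  induction s using Finsupp.induction_linear with
  | zero => rw [pA_zero, th_one]; simp
  | add s t hs ht =>
    rw [pA_add, th_mul, hs, ht, Finset.sum_mul, Finset.mul_sum, ← Finset.sum_add_distrib]
    refine Finset.sum_congr rfl fun v _ => ?_
    have e1 : s v ≠ 0 → pA T L (s + t - Finsupp.single v 1) = pA T L (s - Finsupp.single v 1) * pA T L t := by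
      intro h
      rw [← pA_add]
      congr 1
      ext w
      simp only [Finsupp.add_apply, Finsupp.tsub_apply, Finsupp.single_apply]
      split_ifs with hw
      · subst hw; omega
      · omega
    have e2 : t v ≠ 0 → pA T L (s + t - Finsupp.single v 1) = pA T L s * pA T L (t - Finsupp.single v 1) := by
      intro h
      rw [← pA_add]
      congr 1
      ext w
      simp only [Finsupp.add_apply, Finsupp.tsub_apply, Finsupp.single_apply]
      split_ifs with hw
      · subst hw; omega
      · omega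
    rw [Finsupp.add_apply]
    by_cases h1 : s v = 0
    · by_cases h2 : t v = 0
      · simp [h1, h2]
      · rw [h1, e2 h2]; push_cast; ring
    · by_cases h2 : t v = 0
      · rw [h2, e1 h1]; push_cast; ring
      · have e3 := e1 h1
        have e4 := e2 h2
        push_cast
        linear_combination ((-(s v : K⟦X⟧)) * th (yA T L v)) * e3 + (-(t v : K⟦X⟧) * th (yA T L v)) * e4
  | single v n =>
    have key : ∀ n : ℕ, pA T L (Finsupp.single v n) = yA T L v ^ n := by
      intro n
      unfold pA
      rw [Finset.prod_eq_single v]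
      · rw [Finsupp.single_eq_same]
      · intro w _ hw
        rw [Finsupp.single_apply, if_neg hw.symm, pow_zero]
      · intro h; exact absurd (Finset.mem_univ v) h
    rw [key, th_pow, Finset.sum_eq_single v]
    · rw [Finsupp.single_eq_same, ← Finsupp.single_tsub, key]
      ring
    · intro w _ hw
      rw [Finsupp.single_apply, if_neg hw.symm]
      simp
    · intro h; exact absurd (Finset.mem_univ v) h

/-- the weight of the twists -/
def Aw (s : (Fin L × T) →₀ ℕ) : ℚ := ∑ v, v.2.1.1 * (s v : ℚ)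

/-- the main part and the rest of the derivative of a monomial -/
lemma th_monA (hT : ∀ t ∈ T, 0 ≤ t.1) (p : K × ((Fin L × T) →₀ ℕ)) : th (monA T L p) =
    (C p.1 * X - C (Aw T L p.2 : K)) * monA T L p + ∑ v, (p.2 v : K⟦X⟧) * (ex p.1 *
      ((if v.1.1 = 0 then 1 - ex (-v.2.1.2) else yA T L (prA T L v)) * pA T L (p.2 - Finsupp.single v 1))) := by
  classical
  rw [monA_eq, th_mul, th_ex, th_pA]
  have h1 : ∀ v, (p.2 v : K⟦X⟧) * (th (yA T L v) * pA T L (p.2 - Finsupp.single v 1)) =
      (p.2 v : K⟦X⟧) * ((if v.1.1 = 0 then 1 - ex (-v.2.1.2) else yA T L (prA T L v)) *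
        pA T L (p.2 - Finsupp.single v 1)) - C ((v.2.1.1 : K) * (p.2 v : K)) * pA T L p.2 := by
    intro v
    rw [th_yA T L v (hT _ v.2.2)]
    by_cases h0 : p.2 v = 0
    · rw [h0]; simp
    · have h2 : yA T L v * pA T L (p.2 - Finsupp.single v 1) = pA T L p.2 := by
        rw [← pA_single, ← pA_add]
        congr 1
        ext w
        simp only [Finsupp.add_apply, Finsupp.tsub_apply, Finsupp.single_apply]
        split_ifs with hw
        · subst hw; omega
        · omega
      rw [map_mul, map_natCast, sub_mul, mul_sub, ← h2]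
      ring
  rw [Finset.sum_congr rfl fun v _ => h1 v, Finset.sum_sub_distrib]
  have h3 : ∑ v, C ((v.2.1.1 : K) * (p.2 v : K)) * pA T L p.2 = C (Aw T L p.2 : K) * pA T L p.2 := by
    rw [← Finset.sum_mul, ← map_sum]
    congr 2
    unfold Aw
    push_cast
    rfl
  rw [h3, mul_sub, Finset.mul_sum]
  have h4 : ∀ v, ex p.1 * ((p.2 v : K⟦X⟧) * ((if v.1.1 = 0 then 1 - ex (-v.2.1.2) else yA T L (prA T L v)) *
        pA T L (p.2 - Finsupp.single v 1))) = (p.2 v : K⟦X⟧) * (ex p.1 *
      ((if v.1.1 = 0 then 1 - ex (-v.2.1.2) else yA T L (prA T L v)) * pA T L (p.2 - Finsupp.single v 1))) :=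
    fun v => by ring
  rw [Finset.sum_congr rfl fun v _ => h4 v]
  ring

end

end Pool.Agent.P8H90.AP
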