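import Pool.Agent.P8H90.AP.TowerB

/-!
# Project AP, package NM: values of combinations of the monomials
-/

set_option autoImplicit false

open PowerSeries

namespace Pool.Agent.P8H90.AP

section

variable {K : Type} [Field K] [CharZero K] (S : Finset K) (L : ℕ)

lemma map_ex (σ : K →+* K) (a : K) : PowerSeries.map σ (ex a) = ex (σ a) := by
  ext m
  simp [ex]

lemma map_gl (σ : K →+* K) (l : ℕ) (a : K) : PowerSeries.map σ (gl l a) = gl l (σ a) := by
  ext m
  rw [coeff_map, gl, gl, coeff_mk, coeff_mk]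
  split_ifs <;> simp

/-- the space of all combinations of monomials -/
noncomputable abbrev AA : Submodule K K⟦X⟧ := Submodule.span K (Set.range (mon S L))

lemma mon_mem (p : II S L) : mon S L p ∈ AA S L := Submodule.subset_span ⟨p, rfl⟩

lemma one_mem_AA : (1 : K⟦X⟧) ∈ AA S L := by
  rw [← mon_zero S L]
  exact mon_mem S L _

lemma mul_mem_AA {y z : K⟦X⟧} (hy : y ∈ AA S L) (hz : z ∈ AA S L) : y * z ∈ AA S L := by
  induction hy using Submodule.span_induction with
  | mem y hy =>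
    obtain ⟨p, rfl⟩ := hy
    induction hz using Submodule.span_induction with
    | mem z hz =>
      obtain ⟨q, rfl⟩ := hz
      rw [show mon S L p * mon S L q = mon S L (p.1 + q.1, p.2 + q.2) from mon_mul S L p.1 q.1 p.2 q.2]
      exact mon_mem S L _
    | zero => rw [mul_zero]; exact Submodule.zero_mem _
    | add a b _ _ ha hb => rw [mul_add]; exact Submodule.add_mem _ ha hb
    | smul c a _ ha => rw [mul_smul_comm]; exact Submodule.smul_mem _ _ ha
  | zero => rw [zero_mul]; exact Submodule.zero_mem _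
  | add a b _ _ ha hb => rw [add_mul]; exact Submodule.add_mem _ ha hb
  | smul c a _ ha => rw [smul_mul_assoc]; exact Submodule.smul_mem _ _ ha

lemma prod_mem_AA {ι : Type} (s : Finset ι) (f : ι → K⟦X⟧) (hf : ∀ i ∈ s, f i ∈ AA S L) : ∏ i ∈ s, f i ∈ AA S L := by
  classical
  induction s using Finset.induction_on with
  | empty => rw [Finset.prod_empty]; exact one_mem_AA S L
  | insert a s ha ih =>
    rw [Finset.prod_insert ha]
    exact mul_mem_AA S L (hf a (Finset.mem_insert_self _ _)) (ih fun i hi => hf i (Finset.mem_insert_of_mem hi))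

/-- linearly independent elements of the span over `K` are linearly independent over `K[X]` -/
lemma li_span {I : Type} {b : I → K⟦X⟧} (hb : LinearIndependent (Polynomial K) b) {N : ℕ} {y : Fin N → K⟦X⟧}
    (hy : ∀ i, y i ∈ Submodule.span K (Set.range b)) (hLI : LinearIndependent K y) :
    LinearIndependent (Polynomial K) y := by
  classical
  have hc : ∀ j, ∃ c : I →₀ K, Finsupp.linearCombination K b c = y j := fun j =>
    (Finsupp.mem_span_range_iff_exists_finsupp.1 (hy j))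
  choose c hc using hc
  rw [Fintype.linearIndependent_iff]
  intro p hp
  -- the coefficients
  have h1 : ∀ i, ∑ j, p j * Polynomial.C (c j i) = 0 := by
    have h2 : Finsupp.linearCombination (Polynomial K) b
        (∑ j, p j • (c j).mapRange Polynomial.C (map_zero _)) = 0 := by
      rw [map_sum, ← hp]
      refine Finset.sum_congr rfl fun j _ => ?_
      rw [map_smul, ← hc j]
      congr 1
      rw [Finsupp.linearCombination_apply, Finsupp.linearCombination_apply, Finsupp.sum_mapRange_index (by simp)]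
      refine Finsupp.sum_congr fun i _ => ?_
      rw [smul_coe, Polynomial.coe_C, PowerSeries.smul_eq_C_mul]
    have h3 := linearIndependent_iff.1 hb _ h2
    intro i
    have h4 := DFunLike.congr_fun h3 i
    rw [Finsupp.coe_finsetSum, Finset.sum_apply] at h4
    simpa using h4
  intro j
  ext n
  have h5 : ∑ j, (p j).coeff n • y j = 0 := by
    have h6 : ∑ j, (p j).coeff n • c j = 0 := by
      ext i
      have h7 := congrArg (fun q => q.coeff n) (h1 i)
      simp only [Polynomial.finset_sum_coeff, Polynomial.coeff_mul_C, Polynomial.coeff_zero] at h7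
      rw [Finsupp.coe_finsetSum, Finset.sum_apply]
      simpa using h7
    have h8 := congrArg (Finsupp.linearCombination K b) h6
    rw [map_sum, map_zero] at h8
    rw [← h8]
    exact Finset.sum_congr rfl fun j _ => by rw [map_smul, hc]
  have := Fintype.linearIndependent_iff.1 hLI _ h5 j
  rw [this, Polynomial.coeff_zero]

/-! ### the finite index sets -/

/-- the exponents of the exponentials -/
noncomputable def Lam [DecidableEq K] (Λ : Finset K) : ℕ → Finset K
  | 0 => Λ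
  | n + 1 => Lam Λ n ∪ Finset.image₂ (fun x a => x - a) (Lam Λ n) S

lemma Lam_succ [DecidableEq K] (Λ : Finset K) (n : ℕ) : Lam S Λ n ⊆ Lam S Λ (n + 1) := Finset.subset_union_left

lemma Lam_mono [DecidableEq K] (Λ : Finset K) {m n : ℕ} (h : m ≤ n) : Lam S Λ m ⊆ Lam S Λ n := by
  induction n, h using Nat.le_induction with
  | base => exact subset_rfl
  | succ n _ ih => exact ih.trans (Lam_succ S Λ n)

lemma Lam_sub [DecidableEq K] (Λ : Finset K) {n : ℕ} {x a : K} (hx : x ∈ Lam S Λ n) (ha : a ∈ S) :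
    x - a ∈ Lam S Λ (n + 1) := Finset.mem_union_right _ (Finset.mem_image₂.2 ⟨x, hx, a, ha, rfl⟩)

lemma Lam_map [DecidableEq K] (Λ : Finset K) (σ : K →+* K) (hΛ : ∀ x ∈ Λ, σ x ∈ Λ) (hS : ∀ a ∈ S, σ a ∈ S) (n : ℕ) :
    ∀ x ∈ Lam S Λ n, σ x ∈ Lam S Λ n := by
  induction n with
  | zero => exact hΛ
  | succ n ih =>
    intro x hx
    rcases Finset.mem_union.1 hx with h | h
    · exact Finset.mem_union_left _ (ih x h)
    · obtain ⟨y, hy, a, ha, rfl⟩ := Finset.mem_image₂.1 h
      rw [map_sub]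
      exact Lam_sub S Λ (ih y hy) (hS a ha)

/-- the degree -/
def dg (s : (Fin L × S) →₀ ℕ) : ℕ := ∑ v, s v

/-- the index set -/
def JJ [DecidableEq K] (Λ : Finset K) (d : ℕ) : Set (II S L) := {p | dg S L p.2 ≤ d ∧ p.1 ∈ Lam S Λ (d - dg S L p.2)}

lemma JJ_finite [DecidableEq K] (Λ : Finset K) (d : ℕ) : (JJ S L Λ d).Finite := by
  have h1 : {s : (Fin L × S) →₀ ℕ | dg S L s ≤ d}.Finite := by
    apply (Set.finite_Iic (Finsupp.equivFunOnFinite.symm (fun _ => d) : (Fin L × S) →₀ ℕ)).subset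
    intro s hs v
    rw [Finsupp.equivFunOnFinite_symm_apply_apply]
    exact (Finset.single_le_sum (f := fun v => s v) (fun _ _ => Nat.zero_le _) (Finset.mem_univ v)).trans hs
  refine ((Lam S Λ d).finite_toSet.prod h1).subset ?_
  rintro p ⟨hp1, hp2⟩
  exact ⟨Lam_mono S Λ (Nat.sub_le _ _) hp2, hp1⟩

lemma dg_sub {s : (Fin L × S) →₀ ℕ} {v : Fin L × S} (h : s v ≠ 0) : dg S L (s - Finsupp.single v 1) + 1 = dg S L s := by
  classical
  unfold dg
  rw [← Finset.add_sum_erase _ _ (Finset.mem_univ v), ← Finset.add_sum_erase _ (fun w => s w) (Finset.mem_univ v)]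
  have h1 : ∑ w ∈ Finset.univ.erase v, (s - Finsupp.single v 1 : (Fin L × S) →₀ ℕ) w =
      ∑ w ∈ Finset.univ.erase v, s w := by
    refine Finset.sum_congr rfl fun w hw => ?_
    rw [Finsupp.tsub_apply, Finsupp.single_apply, if_neg (Finset.mem_erase.1 hw).1.symm, Nat.sub_zero]
  rw [h1, Finsupp.tsub_apply, Finsupp.single_eq_same]
  omega

lemma dg_add_single (s : (Fin L × S) →₀ ℕ) (v : Fin L × S) : dg S L (s + Finsupp.single v 1) = dg S L s + 1 := by
  classical
  unfold dg
  simp only [Finsupp.add_apply, Finset.sum_add_distrib]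
  congr 1
  rw [Finset.sum_eq_single v]
  · simp
  · intro w _ hw; rw [Finsupp.single_apply, if_neg hw.symm]
  · intro h; exact absurd (Finset.mem_univ v) h

/-- the invariant space -/
noncomputable def VV [DecidableEq K] (Λ : Finset K) (d : ℕ) : Submodule K K⟦X⟧ := Submodule.span K (mon S L '' JJ S L Λ d)

lemma mon_mem_VV [DecidableEq K] {Λ : Finset K} {d : ℕ} {p : II S L} (h : p ∈ JJ S L Λ d) : mon S L p ∈ VV S L Λ d :=
  Submodule.subset_span ⟨p, h, rfl⟩

lemma th_mon [DecidableEq K] (Λ : Finset K) (d : ℕ) (p : II S L) (hp : p ∈ JJ S L Λ d) :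
    ∃ a ∈ VV S L Λ d, ∃ b ∈ VV S L Λ d, X * d⁄dX K (mon S L p) = a + X * b := by
  obtain ⟨hp1, hp2⟩ := hp
  have h1 : X * d⁄dX K (mon S L p) = (∑ v, (p.2 v : K⟦X⟧) * (ex p.1 * (th (yy S L v) *
      pp S L (p.2 - Finsupp.single v 1)))) + X * (C p.1 * mon S L p) := by
    change th (mon S L p) = _
    rw [mon_eq, th_mul, th_ex, th_pp, Finset.mul_sum]
    rw [add_comm]
    congr 1
    · exact Finset.sum_congr rfl fun v _ => by ring
    · ring
  refine ⟨_, ?_, _, ?_, h1⟩
  · refine Submodule.sum_mem _ fun v _ => ?_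
    by_cases h0 : p.2 v = 0
    · rw [h0]; simp
    have hnat : ∀ (n : ℕ) (y : K⟦X⟧), y ∈ VV S L Λ d → (n : K⟦X⟧) * y ∈ VV S L Λ d := by
      intro n y hy
      rw [← nsmul_eq_mul]
      exact Submodule.smul_of_tower_mem _ n hy
    apply hnat
    have hd := dg_sub S L h0
    rw [th_yy]
    split_ifs with h2
    · have e : ex p.1 * ((1 - ex (-(v.2 : K))) * pp S L (p.2 - Finsupp.single v 1)) =
          mon S L (p.1, p.2 - Finsupp.single v 1) - mon S L (p.1 - v.2, p.2 - Finsupp.single v 1) := by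
        rw [mon_eq, mon_eq]
        simp only
        have : ex (p.1 - (v.2 : K)) = ex p.1 * ex (-(v.2 : K)) := by rw [← ex_add]; ring_nf
        rw [this]
        ring
      rw [e]
      refine Submodule.sub_mem _ (mon_mem_VV S L ⟨?_, ?_⟩) (mon_mem_VV S L ⟨?_, ?_⟩)
      · simp only; omega
      · simp only
        exact Lam_mono S Λ (by omega) hp2
      · simp only; omega
      · simp only
        have e2 : d - dg S L (p.2 - Finsupp.single v 1) = (d - dg S L p.2) + 1 := by omega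
        rw [e2]
        exact Lam_sub S Λ hp2 v.2.2
    · have e : ex p.1 * (yy S L (pr S L v) * pp S L (p.2 - Finsupp.single v 1)) =
          mon S L (p.1, p.2 - Finsupp.single v 1 + Finsupp.single (pr S L v) 1) := by
        rw [mon_eq, pp_add, pp_single]
        ring
      rw [e]
      refine mon_mem_VV S L ⟨?_, ?_⟩
      · simp only; rw [dg_add_single]; omega
      · simp only
        rw [dg_add_single]
        have e2 : d - (dg S L (p.2 - Finsupp.single v 1) + 1) = d - dg S L p.2 := by omega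
        rw [e2]
        exact hp2
  · rw [← PowerSeries.smul_eq_C_mul]
    exact Submodule.smul_mem _ _ (mon_mem_VV S L ⟨hp1, hp2⟩)

lemma th_VV [DecidableEq K] (Λ : Finset K) (d : ℕ) (y : K⟦X⟧) (hy : y ∈ VV S L Λ d) :
    ∃ a ∈ VV S L Λ d, ∃ b ∈ VV S L Λ d, X * d⁄dX K y = a + X * b := by
  induction hy using Submodule.span_induction with
  | mem y hy =>
    obtain ⟨p, hp, rfl⟩ := hy
    exact th_mon S L Λ d p hp
  | zero => exact ⟨0, Submodule.zero_mem _, 0, Submodule.zero_mem _, by simp⟩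
  | add y z _ _ hy hz =>
    obtain ⟨a, ha, b, hb, h⟩ := hy
    obtain ⟨a', ha', b', hb', h'⟩ := hz
    exact ⟨a + a', Submodule.add_mem _ ha ha', b + b', Submodule.add_mem _ hb hb', by
      rw [map_add, mul_add, h, h']; ring⟩
  | smul c y _ hy =>
    obtain ⟨a, ha, b, hb, h⟩ := hy
    exact ⟨c • a, Submodule.smul_mem _ _ ha, c • b, Submodule.smul_mem _ _ hb, by
      rw [Derivation.map_smul, mul_smul_comm, h, smul_add, mul_smul_comm]⟩

/-! ### the Galois action -/

/-- the permutation of the variables -/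
def perm {S : Finset K} (L : ℕ) (σ τ : K →+* K) (hσ : ∀ a ∈ S, σ a ∈ S) (hτ : ∀ a ∈ S, τ a ∈ S) (h1 : ∀ a, τ (σ a) = a)
    (h2 : ∀ a, σ (τ a) = a) : Fin L × S ≃ Fin L × S where
  toFun v := (v.1, ⟨σ v.2, hσ _ v.2.2⟩)
  invFun v := (v.1, ⟨τ v.2, hτ _ v.2.2⟩)
  left_inv v := Prod.ext rfl (Subtype.ext (h1 _))
  right_inv v := Prod.ext rfl (Subtype.ext (h2 _))

lemma map_mon (σ τ : K →+* K) (hσ : ∀ a ∈ S, σ a ∈ S) (hτ : ∀ a ∈ S, τ a ∈ S) (h1 : ∀ a, τ (σ a) = a)
    (h2 : ∀ a, σ (τ a) = a) (p : II S L) : PowerSeries.map σ (mon S L p) =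
      mon S L (σ p.1, p.2.equivMapDomain (perm L σ τ hσ hτ h1 h2)) := by
  rw [mon_eq, mon_eq, map_mul, map_ex, pp, pp, map_prod]
  congr 1
  refine Fintype.prod_equiv (perm L σ τ hσ hτ h1 h2) _ _ fun v => ?_
  rw [map_pow, yy, yy, map_gl, Finsupp.equivMapDomain_apply, Equiv.symm_apply_apply]
  rfl

lemma dg_perm (e : Fin L × S ≃ Fin L × S) (s : (Fin L × S) →₀ ℕ) : dg S L (s.equivMapDomain e) = dg S L s := by
  unfold dg
  rw [← Equiv.sum_comp e]
  exact Finset.sum_congr rfl fun v _ => by rw [Finsupp.equivMapDomain_apply, Equiv.symm_apply_apply]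

end

section

variable {K : Type} [Field K] [NumberField K] [IsGalois ℚ K] (S : Finset K) (L : ℕ)

/-- the action of an automorphism on power series -/
noncomputable abbrev act (σ : K ≃ₐ[ℚ] K) : K⟦X⟧ →+* K⟦X⟧ := PowerSeries.map (σ : K →+* K)

lemma act_mon (hS : ∀ σ : K ≃ₐ[ℚ] K, ∀ a ∈ S, σ a ∈ S) (σ : K ≃ₐ[ℚ] K) (p : II S L) :
    ∃ e : Fin L × S ≃ Fin L × S, act σ (mon S L p) = mon S L (σ p.1, p.2.equivMapDomain e) :=
  ⟨_, map_mon S L (σ : K →+* K) (σ.symm : K →+* K) (hS σ) (hS σ.symm) (fun a => σ.symm_apply_apply a)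
    (fun a => σ.apply_symm_apply a) p⟩

lemma act_mem_AA (hS : ∀ σ : K ≃ₐ[ℚ] K, ∀ a ∈ S, σ a ∈ S) (σ : K ≃ₐ[ℚ] K) {y : K⟦X⟧} (hy : y ∈ AA S L) :
    act σ y ∈ AA S L := by
  induction hy using Submodule.span_induction with
  | mem y hy =>
    obtain ⟨p, rfl⟩ := hy
    obtain ⟨e, he⟩ := act_mon S L hS σ p
    rw [he]
    exact mon_mem S L _
  | zero => rw [map_zero]; exact Submodule.zero_mem _
  | add a b _ _ ha hb => rw [map_add]; exact Submodule.add_mem _ ha hb
  | smul c a _ ha =>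
    rw [PowerSeries.smul_eq_C_mul, map_mul, PowerSeries.map_C, ← PowerSeries.smul_eq_C_mul]
    exact Submodule.smul_mem _ _ ha

lemma act_mem_VV [DecidableEq K] {Λ : Finset K} (hΛ : ∀ σ : K ≃ₐ[ℚ] K, ∀ a ∈ Λ, σ a ∈ Λ) {d : ℕ}
    (hS : ∀ σ : K ≃ₐ[ℚ] K, ∀ a ∈ S, σ a ∈ S) (σ : K ≃ₐ[ℚ] K) {y : K⟦X⟧} (hy : y ∈ VV S L Λ d) :
    act σ y ∈ VV S L Λ d := by
  induction hy using Submodule.span_induction with
  | mem y hy =>
    obtain ⟨p, hp, rfl⟩ := hy
    obtain ⟨e, he⟩ := act_mon S L hS σ p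
    rw [he]
    refine mon_mem_VV S L ⟨?_, ?_⟩
    · simp only; rw [dg_perm]; exact hp.1
    · simp only
      rw [dg_perm]
      exact Lam_map S Λ (σ : K →+* K) (hΛ σ) (hS σ) _ _ hp.2
  | zero => rw [map_zero]; exact Submodule.zero_mem _
  | add a b _ _ ha hb => rw [map_add]; exact Submodule.add_mem _ ha hb
  | smul c a _ ha =>
    rw [PowerSeries.smul_eq_C_mul, map_mul, PowerSeries.map_C, ← PowerSeries.smul_eq_C_mul]
    exact Submodule.smul_mem _ _ ha

/-- the norm -/
noncomputable def nrm (v : K⟦X⟧) : K⟦X⟧ := ∏ σ : K ≃ₐ[ℚ] K, act σ v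

lemma act_nrm (τ : K ≃ₐ[ℚ] K) (v : K⟦X⟧) : act τ (nrm v) = nrm v := by
  unfold nrm
  rw [map_prod, ← Equiv.prod_comp (Equiv.mulLeft τ) (fun σ => act σ v)]
  refine Finset.prod_congr rfl fun σ _ => ?_
  ext m
  rw [coeff_map, coeff_map, coeff_map]
  rfl

lemma nrm_ne {v : K⟦X⟧} (hv : v ≠ 0) : nrm v ≠ 0 := by
  unfold nrm
  rw [Finset.prod_ne_zero_iff]
  intro σ _ h
  apply hv
  have hinj : Function.Injective (act σ) := PowerSeries.map_injective _ (RingHom.injective _)
  exact hinj (by rw [h, map_zero])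

lemma rational_of_fixed {y : K⟦X⟧} (h : ∀ σ : K ≃ₐ[ℚ] K, act σ y = y) :
    ∃ y₀ : ℚ⟦X⟧, PowerSeries.map (algebraMap ℚ K) y₀ = y := by
  have h1 : ∀ m, ∃ r : ℚ, algebraMap ℚ K r = coeff m y := by
    intro m
    have h2 := (IsGalois.mem_range_algebraMap_iff_fixed (F := ℚ) (E := K) (coeff m y)).2 (fun σ => by
      have h3 := congrArg (coeff m) (h σ)
      rw [coeff_map] at h3
      exact h3)
    exact h2
  choose r hr using h1
  refine ⟨PowerSeries.mk r, ?_⟩
  ext m
  rw [coeff_map, coeff_mk, hr]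

end

/-- package NM -/
theorem s_nm (hTW : S_TW) (hEK : S_EK) (hEV : S_EV) (hDS : S_DS) : S_NM := by
  classical
  intro K _ _ _ ι S L h0 hS v hv hv0
  obtain ⟨ek1, ek2, ek3, ek4, ek5⟩ := hEK K ι (fun a => by
    have := Algebra.IsAlgebraic.isAlgebraic (R := ℚ) a
    obtain ⟨p, hp, hpa⟩ := this
    refine ⟨p, hp, ?_⟩
    have h1 : Polynomial.aeval (ι a) p = ι (Polynomial.aeval a p) := by
      rw [Polynomial.aeval_def, Polynomial.aeval_def, Polynomial.hom_eval₂]
      congr 1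
      exact Subsingleton.elim _ _
    rw [h1, hpa, map_zero])
  obtain ⟨ev1, ev2, ev3, ev4, ev5⟩ := hEV K ι
  have hmonE : ∀ p : II S L, EFK ι (mon S L p) := by
    intro p
    rw [mon_eq]
    refine ek2 _ _ (ek4 _) ?_
    unfold pp
    refine Finset.prod_induction _ (EFK ι) (fun a b ha hb => ek2 a b ha hb) ?_ fun v _ => ?_
    · have := ek3 1
      rwa [map_one] at this
    · have hpow : ∀ n : ℕ, EFK ι (yy S L v ^ n) := by
        intro n
        induction n with
        | zero => have := ek3 1; rw [pow_zero]; rwa [map_one] at this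
        | succ n ih => rw [pow_succ]; exact ek2 _ _ ih (ek5 _ _)
      exact hpow _
  have hAE : ∀ y ∈ AA S L, EFK ι y := by
    intro y hy
    induction hy using Submodule.span_induction with
    | mem y hy => obtain ⟨p, rfl⟩ := hy; exact hmonE p
    | zero => have := ek3 0; rwa [map_zero] at this
    | add a b _ _ ha hb => exact ek1 _ _ ha hb
    | smul c a _ ha => rw [PowerSeries.smul_eq_C_mul]; exact ek2 _ _ (ek3 c) ha
  have hVA : ∀ (Λ : Finset K) (d : ℕ), VV S L Λ d ≤ AA S L := fun Λ d =>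
    Submodule.span_mono (Set.image_subset_range _ _)
  -- the norm
  obtain ⟨w, hw⟩ : ∃ w, w = nrm v := ⟨_, rfl⟩
  have hwA : w ∈ AA S L := by
    rw [hw]
    exact prod_mem_AA S L _ _ fun σ _ => act_mem_AA S L hS σ hv
  have hw0 : w ≠ 0 := by rw [hw]; exact nrm_ne hv0
  obtain ⟨y₀, hy₀⟩ := rational_of_fixed (y := w) (fun σ => by rw [hw]; exact act_nrm σ v)
  have hy₀0 : y₀ ≠ 0 := by
    rintro rfl
    rw [map_zero] at hy₀
    exact hw0 hy₀.symm
  obtain ⟨c, hc⟩ := Finsupp.mem_span_range_iff_exists_finsupp.1 hwA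
  let Λ : Finset K := Finset.univ.biUnion fun σ : K ≃ₐ[ℚ] K => (insert 0 (c.support.image Prod.fst)).image σ
  let d : ℕ := c.support.sup fun p => dg S L p.2
  have hΛ : ∀ σ : K ≃ₐ[ℚ] K, ∀ a ∈ Λ, σ a ∈ Λ := by
    intro σ a ha
    obtain ⟨τ, _, hτ⟩ := Finset.mem_biUnion.1 ha
    obtain ⟨b, hb, rfl⟩ := Finset.mem_image.1 hτ
    exact Finset.mem_biUnion.2 ⟨σ * τ, Finset.mem_univ _, Finset.mem_image.2 ⟨b, hb, rfl⟩⟩
  have hΛ0 : ∀ a ∈ insert 0 (c.support.image Prod.fst), a ∈ Λ := fun a ha =>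
    Finset.mem_biUnion.2 ⟨1, Finset.mem_univ _, Finset.mem_image.2 ⟨a, ha, rfl⟩⟩
  have hwV : w ∈ VV S L Λ d := by
    rw [← hc, Finsupp.sum]
    refine Submodule.sum_mem _ fun p hp => Submodule.smul_mem _ _ (mon_mem_VV S L ⟨?_, ?_⟩)
    · exact Finset.le_sup (f := fun p : II S L => dg S L p.2) hp
    · refine Lam_mono S Λ (Nat.zero_le _) (hΛ0 _ ?_)
      exact Finset.mem_insert_of_mem (Finset.mem_image_of_mem _ hp)
  have h1V : (1 : K⟦X⟧) ∈ VV S L Λ d := by
    rw [← mon_zero S L]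
    refine mon_mem_VV S L ⟨?_, ?_⟩
    · simp [dg]
    · exact Lam_mono S Λ (Nat.zero_le _) (hΛ0 _ (Finset.mem_insert_self _ _))
  have hfin : Module.Finite K (VV S L Λ d) := by
    haveI := ((JJ_finite S L Λ d).image (mon S L)).to_subtype
    exact Module.Finite.span_of_finite K ((JJ_finite S L Λ d).image (mon S L))
  have hmain := hDS K ι (VV S L Λ d) hfin h1V (fun σ y hy => act_mem_VV S L hΛ hS σ hy)
    (fun y hy => th_VV S L Λ d y hy) (fun N y hy hLI => li_span (hTW K S L h0) (fun i => hVA Λ d (hy i)) hLI)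
    (fun y hy => hAE y (hVA Λ d hy)) y₀ hy₀0 (by rw [hy₀]; exact hwV)
  have h5 := ev5 y₀
  rw [hy₀] at h5
  intro hzero
  apply hmain
  have hprod : ∀ s : Finset (K ≃ₐ[ℚ] K), evK ι (∏ σ ∈ s, act σ v) = ∏ σ ∈ s, evK ι (act σ v) := by
    intro s
    induction s using Finset.induction_on with
    | empty =>
      rw [Finset.prod_empty, Finset.prod_empty]
      have := ev3 1
      rwa [map_one, map_one] at this
    | insert a s ha ih =>
      rw [Finset.prod_insert ha, Finset.prod_insert ha, ev2 _ _ (hAE _ (act_mem_AA S L hS a hv))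
        (hAE _ (prod_mem_AA S L _ _ fun σ _ => act_mem_AA S L hS σ hv)), ih]
  have h6 : evK ι w = 0 := by
    rw [hw, nrm, hprod]
    apply Finset.prod_eq_zero (Finset.mem_univ (1 : K ≃ₐ[ℚ] K))
    have : act (1 : K ≃ₐ[ℚ] K) v = v := by
      ext m
      rw [coeff_map]
      rfl
    rw [this]
    exact hzero
  rw [h6] at h5
  exact_mod_cast h5.symm

end Pool.Agent.P8H90.AP
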