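import Pool.Agent.P8H90.AP.MonA
import Pool.Agent.P8H90.AP.Norm

/-!
# Project AP, package NMA: values of combinations of the monomials
-/

set_option autoImplicit false

open PowerSeries

namespace Pool.Agent.P8H90.AP

section

variable {K : Type} [Field K] [CharZero K] (T : Finset (ℚ × K)) (L : ℕ)

/-- the index set -/
abbrev IA : Type := K × ((Fin L × T) →₀ ℕ)

lemma map_ga (σ : K →+* K) (b : ℚ) (l : ℕ) (a : K) : PowerSeries.map σ (ga b l a) = ga b l (σ a) := by
  ext m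
  rw [coeff_map, ga, ga, coeff_mk, coeff_mk]
  split_ifs <;> simp

/-- the space of all combinations of monomials -/
noncomputable abbrev BB : Submodule K K⟦X⟧ := Submodule.span K (Set.range (monA T L))

lemma monA_mem (p : IA T L) : monA T L p ∈ BB T L := Submodule.subset_span ⟨p, rfl⟩

lemma one_mem_BB : (1 : K⟦X⟧) ∈ BB T L := by
  rw [← monA_zero T L]
  exact monA_mem T L _

lemma mul_mem_BB {y z : K⟦X⟧} (hy : y ∈ BB T L) (hz : z ∈ BB T L) : y * z ∈ BB T L := by
  induction hy using Submodule.span_induction with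
  | mem y hy =>
    obtain ⟨p, rfl⟩ := hy
    induction hz using Submodule.span_induction with
    | mem z hz =>
      obtain ⟨q, rfl⟩ := hz
      rw [show monA T L p * monA T L q = monA T L (p.1 + q.1, p.2 + q.2) from monA_mul T L p.1 q.1 p.2 q.2]
      exact monA_mem T L _
    | zero => rw [mul_zero]; exact Submodule.zero_mem _
    | add a b _ _ ha hb => rw [mul_add]; exact Submodule.add_mem _ ha hb
    | smul c a _ ha => rw [mul_smul_comm]; exact Submodule.smul_mem _ _ ha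
  | zero => rw [zero_mul]; exact Submodule.zero_mem _
  | add a b _ _ ha hb => rw [add_mul]; exact Submodule.add_mem _ ha hb
  | smul c a _ ha => rw [smul_mul_assoc]; exact Submodule.smul_mem _ _ ha

lemma prod_mem_BB {ι : Type} (s : Finset ι) (f : ι → K⟦X⟧) (hf : ∀ i ∈ s, f i ∈ BB T L) : ∏ i ∈ s, f i ∈ BB T L := by
  classical
  induction s using Finset.induction_on with
  | empty => rw [Finset.prod_empty]; exact one_mem_BB T L
  | insert a s ha ih =>
    rw [Finset.prod_insert ha]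
    exact mul_mem_BB T L (hf a (Finset.mem_insert_self _ _)) (ih fun i hi => hf i (Finset.mem_insert_of_mem hi))

/-! ### the finite index sets -/

/-- the points -/
noncomputable abbrev SA [DecidableEq K] : Finset K := T.image Prod.snd

/-- the degree -/
def dgA (s : (Fin L × T) →₀ ℕ) : ℕ := ∑ v, s v

/-- the index set -/
def JJA [DecidableEq K] (Λ : Finset K) (d : ℕ) : Set (IA T L) :=
  {p | dgA T L p.2 ≤ d ∧ p.1 ∈ Lam (SA T) Λ (d - dgA T L p.2)}

lemma JJA_finite [DecidableEq K] (Λ : Finset K) (d : ℕ) : (JJA T L Λ d).Finite := by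
  have h1 : {s : (Fin L × T) →₀ ℕ | dgA T L s ≤ d}.Finite := by
    apply (Set.finite_Iic (Finsupp.equivFunOnFinite.symm (fun _ => d) : (Fin L × T) →₀ ℕ)).subset
    intro s hs v
    rw [Finsupp.equivFunOnFinite_symm_apply_apply]
    exact (Finset.single_le_sum (f := fun v => s v) (fun _ _ => Nat.zero_le _) (Finset.mem_univ v)).trans hs
  refine ((Lam (SA T) Λ d).finite_toSet.prod h1).subset ?_
  rintro p ⟨hp1, hp2⟩
  exact ⟨Lam_mono (SA T) Λ (Nat.sub_le _ _) hp2, hp1⟩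

lemma dgA_sub {s : (Fin L × T) →₀ ℕ} {v : Fin L × T} (h : s v ≠ 0) :
    dgA T L (s - Finsupp.single v 1) + 1 = dgA T L s := by
  classical
  unfold dgA
  rw [← Finset.add_sum_erase _ _ (Finset.mem_univ v), ← Finset.add_sum_erase _ (fun w => s w) (Finset.mem_univ v)]
  have h1 : ∑ w ∈ Finset.univ.erase v, (s - Finsupp.single v 1 : (Fin L × T) →₀ ℕ) w =
      ∑ w ∈ Finset.univ.erase v, s w := by
    refine Finset.sum_congr rfl fun w hw => ?_
    rw [Finsupp.tsub_apply, Finsupp.single_apply, if_neg (Finset.mem_erase.1 hw).1.symm, Nat.sub_zero]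
  rw [h1, Finsupp.tsub_apply, Finsupp.single_eq_same]
  omega

lemma dgA_add_single (s : (Fin L × T) →₀ ℕ) (v : Fin L × T) : dgA T L (s + Finsupp.single v 1) = dgA T L s + 1 := by
  classical
  unfold dgA
  simp only [Finsupp.add_apply, Finset.sum_add_distrib]
  congr 1
  rw [Finset.sum_eq_single v]
  · simp
  · intro w _ hw; rw [Finsupp.single_apply, if_neg hw.symm]
  · intro h; exact absurd (Finset.mem_univ v) h

/-- the invariant space -/
noncomputable def WW [DecidableEq K] (Λ : Finset K) (d : ℕ) : Submodule K K⟦X⟧ :=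
  Submodule.span K (monA T L '' JJA T L Λ d)

lemma monA_mem_WW [DecidableEq K] {Λ : Finset K} {d : ℕ} {p : IA T L} (h : p ∈ JJA T L Λ d) : monA T L p ∈ WW T L Λ d :=
  Submodule.subset_span ⟨p, h, rfl⟩

lemma th_mem_WW [DecidableEq K] (hT : ∀ t ∈ T, 0 ≤ t.1) (Λ : Finset K) (d : ℕ) (p : IA T L) (hp : p ∈ JJA T L Λ d) :
    ∃ a ∈ WW T L Λ d, ∃ b ∈ WW T L Λ d, X * d⁄dX K (monA T L p) = a + X * b := by
  have hp' := hp
  obtain ⟨hp1, hp2⟩ := hp
  have h1 : X * d⁄dX K (monA T L p) = (∑ v, (p.2 v : K⟦X⟧) * (ex p.1 *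
      ((if v.1.1 = 0 then 1 - ex (-v.2.1.2) else yA T L (prA T L v)) * pA T L (p.2 - Finsupp.single v 1))) -
      C (Aw T L p.2 : K) * monA T L p) + X * (C p.1 * monA T L p) := by
    change th (monA T L p) = _
    rw [th_monA T L hT]
    ring
  refine ⟨_, ?_, _, ?_, h1⟩
  · refine Submodule.sub_mem _ (Submodule.sum_mem _ fun v _ => ?_) ?_
    swap
    · rw [← PowerSeries.smul_eq_C_mul]
      exact Submodule.smul_mem _ _ (monA_mem_WW T L hp')
    by_cases h0 : p.2 v = 0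
    · rw [h0]; simp
    have hnat : ∀ (n : ℕ) (y : K⟦X⟧), y ∈ WW T L Λ d → (n : K⟦X⟧) * y ∈ WW T L Λ d := by
      intro n y hy
      rw [← nsmul_eq_mul]
      exact Submodule.smul_of_tower_mem _ n hy
    apply hnat
    have hd := dgA_sub T L h0
    split_ifs with h2
    · have e : ex p.1 * ((1 - ex (-v.2.1.2)) * pA T L (p.2 - Finsupp.single v 1)) =
          monA T L (p.1, p.2 - Finsupp.single v 1) - monA T L (p.1 - v.2.1.2, p.2 - Finsupp.single v 1) := by
        rw [monA_eq, monA_eq]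
        simp only
        have : ex (p.1 - v.2.1.2) = ex p.1 * ex (-v.2.1.2) := by rw [← ex_add]; ring_nf
        rw [this]
        ring
      rw [e]
      refine Submodule.sub_mem _ (monA_mem_WW T L ⟨?_, ?_⟩) (monA_mem_WW T L ⟨?_, ?_⟩)
      · simp only; omega
      · simp only
        exact Lam_mono (SA T) Λ (by omega) hp2
      · simp only; omega
      · simp only
        have e2 : d - dgA T L (p.2 - Finsupp.single v 1) = (d - dgA T L p.2) + 1 := by omega
        rw [e2]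
        exact Lam_sub (SA T) Λ hp2 (Finset.mem_image.2 ⟨v.2.1, v.2.2, rfl⟩)
    · have e : ex p.1 * (yA T L (prA T L v) * pA T L (p.2 - Finsupp.single v 1)) =
          monA T L (p.1, p.2 - Finsupp.single v 1 + Finsupp.single (prA T L v) 1) := by
        rw [monA_eq, pA_add, pA_single]
        ring
      rw [e]
      refine monA_mem_WW T L ⟨?_, ?_⟩
      · simp only; rw [dgA_add_single]; omega
      · simp only
        rw [dgA_add_single]
        have e2 : d - (dgA T L (p.2 - Finsupp.single v 1) + 1) = d - dgA T L p.2 := by omega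
        rw [e2]
        exact hp2
  · rw [← PowerSeries.smul_eq_C_mul]
    exact Submodule.smul_mem _ _ (monA_mem_WW T L hp')

lemma th_WW [DecidableEq K] (hT : ∀ t ∈ T, 0 ≤ t.1) (Λ : Finset K) (d : ℕ) (y : K⟦X⟧) (hy : y ∈ WW T L Λ d) :
    ∃ a ∈ WW T L Λ d, ∃ b ∈ WW T L Λ d, X * d⁄dX K y = a + X * b := by
  induction hy using Submodule.span_induction with
  | mem y hy =>
    obtain ⟨p, hp, rfl⟩ := hy
    exact th_mem_WW T L hT Λ d p hp
  | zero => exact ⟨0, Submodule.zero_mem _, 0, Submodule.zero_mem _, by simp⟩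
  | add y z _ _ hy hz =>
    obtain ⟨a, ha, b, hb, h⟩ := hy
    obtain ⟨a', ha', b', hb', h'⟩ := hz
    exact ⟨a + a', Submodule.add_mem _ ha ha', b + b', Submodule.add_mem _ hb hb', by
      rw [map_add, mul_add, h, h']; ring⟩
  | smul c y _ hy =>
    obtain ⟨a, ha, b, hb, h⟩ := hy
    exact ⟨c • a, Submodule.smul_mem _ _ ha, c • b, Submodule.smul_mem _ _ hb, by
      rw [Derivation.map_smul, mul_smul_comm, h, smul_add, mul_smul_comm]⟩

/-! ### the Galois action -/

/-- the permutation of the variables -/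
def permA {T : Finset (ℚ × K)} (L : ℕ) (σ τ : K →+* K) (hσ : ∀ t ∈ T, (t.1, σ t.2) ∈ T) (hτ : ∀ t ∈ T, (t.1, τ t.2) ∈ T)
    (h1 : ∀ a, τ (σ a) = a) (h2 : ∀ a, σ (τ a) = a) : Fin L × T ≃ Fin L × T where
  toFun v := (v.1, ⟨(v.2.1.1, σ v.2.1.2), hσ _ v.2.2⟩)
  invFun v := (v.1, ⟨(v.2.1.1, τ v.2.1.2), hτ _ v.2.2⟩)
  left_inv v := Prod.ext rfl (Subtype.ext (Prod.ext rfl (h1 _)))
  right_inv v := Prod.ext rfl (Subtype.ext (Prod.ext rfl (h2 _)))

lemma map_monA (σ τ : K →+* K) (hσ : ∀ t ∈ T, (t.1, σ t.2) ∈ T) (hτ : ∀ t ∈ T, (t.1, τ t.2) ∈ T)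
    (h1 : ∀ a, τ (σ a) = a) (h2 : ∀ a, σ (τ a) = a) (p : IA T L) : PowerSeries.map σ (monA T L p) =
      monA T L (σ p.1, p.2.equivMapDomain (permA L σ τ hσ hτ h1 h2)) := by
  rw [monA_eq, monA_eq, map_mul, map_ex, pA, pA, map_prod]
  congr 1
  refine Fintype.prod_equiv (permA L σ τ hσ hτ h1 h2) _ _ fun v => ?_
  rw [map_pow, yA, yA, map_ga, Finsupp.equivMapDomain_apply, Equiv.symm_apply_apply]
  rfl

lemma dgA_perm (e : Fin L × T ≃ Fin L × T) (s : (Fin L × T) →₀ ℕ) : dgA T L (s.equivMapDomain e) = dgA T L s := by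
  unfold dgA
  rw [← Equiv.sum_comp e]
  exact Finset.sum_congr rfl fun v _ => by rw [Finsupp.equivMapDomain_apply, Equiv.symm_apply_apply]

end

section

variable {K : Type} [Field K] [NumberField K] [IsGalois ℚ K] (T : Finset (ℚ × K)) (L : ℕ)

lemma act_monA (hS : ∀ σ : K ≃ₐ[ℚ] K, ∀ t ∈ T, (t.1, σ t.2) ∈ T) (σ : K ≃ₐ[ℚ] K) (p : IA T L) :
    ∃ e : Fin L × T ≃ Fin L × T, act σ (monA T L p) = monA T L (σ p.1, p.2.equivMapDomain e) :=
  ⟨_, map_monA T L (σ : K →+* K) (σ.symm : K →+* K) (hS σ) (hS σ.symm) (fun a => σ.symm_apply_apply a)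
    (fun a => σ.apply_symm_apply a) p⟩

lemma act_mem_BB (hS : ∀ σ : K ≃ₐ[ℚ] K, ∀ t ∈ T, (t.1, σ t.2) ∈ T) (σ : K ≃ₐ[ℚ] K) {y : K⟦X⟧} (hy : y ∈ BB T L) :
    act σ y ∈ BB T L := by
  induction hy using Submodule.span_induction with
  | mem y hy =>
    obtain ⟨p, rfl⟩ := hy
    obtain ⟨e, he⟩ := act_monA T L hS σ p
    rw [he]
    exact monA_mem T L _
  | zero => rw [map_zero]; exact Submodule.zero_mem _
  | add a b _ _ ha hb => rw [map_add]; exact Submodule.add_mem _ ha hb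
  | smul c a _ ha =>
    rw [PowerSeries.smul_eq_C_mul, map_mul, PowerSeries.map_C, ← PowerSeries.smul_eq_C_mul]
    exact Submodule.smul_mem _ _ ha

lemma SA_map [DecidableEq K] (hS : ∀ σ : K ≃ₐ[ℚ] K, ∀ t ∈ T, (t.1, σ t.2) ∈ T) (σ : K ≃ₐ[ℚ] K) :
    ∀ a ∈ SA T, σ a ∈ SA T := by
  intro a ha
  obtain ⟨t, ht, rfl⟩ := Finset.mem_image.1 ha
  exact Finset.mem_image.2 ⟨_, hS σ t ht, rfl⟩

lemma act_mem_WW [DecidableEq K] {Λ : Finset K} (hΛ : ∀ σ : K ≃ₐ[ℚ] K, ∀ a ∈ Λ, σ a ∈ Λ) {d : ℕ}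
    (hS : ∀ σ : K ≃ₐ[ℚ] K, ∀ t ∈ T, (t.1, σ t.2) ∈ T) (σ : K ≃ₐ[ℚ] K) {y : K⟦X⟧} (hy : y ∈ WW T L Λ d) :
    act σ y ∈ WW T L Λ d := by
  induction hy using Submodule.span_induction with
  | mem y hy =>
    obtain ⟨p, hp, rfl⟩ := hy
    obtain ⟨e, he⟩ := act_monA T L hS σ p
    rw [he]
    refine monA_mem_WW T L ⟨?_, ?_⟩
    · simp only; rw [dgA_perm]; exact hp.1
    · simp only
      rw [dgA_perm]
      exact Lam_map (SA T) Λ (σ : K →+* K) (hΛ σ) (SA_map T hS σ) _ _ hp.2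
  | zero => rw [map_zero]; exact Submodule.zero_mem _
  | add a b _ _ ha hb => rw [map_add]; exact Submodule.add_mem _ ha hb
  | smul c a _ ha =>
    rw [PowerSeries.smul_eq_C_mul, map_mul, PowerSeries.map_C, ← PowerSeries.smul_eq_C_mul]
    exact Submodule.smul_mem _ _ ha

end

/-- package NMA -/
theorem s_nma (hTW : S_TWA) (hEK : S_EK) (hEKA : S_EKA) (hEV : S_EV) (hDS : S_DS) : S_NMA := by
  classical
  intro K _ _ _ ι T L h0 hS v hv hv0
  have hT : ∀ t ∈ T, 0 ≤ t.1 := fun t ht => (h0 t ht).1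
  have hι : ∀ a : K, IsAlgebraic ℚ (ι a) := fun a => by
    have := Algebra.IsAlgebraic.isAlgebraic (R := ℚ) a
    obtain ⟨p, hp, hpa⟩ := this
    refine ⟨p, hp, ?_⟩
    have h1 : Polynomial.aeval (ι a) p = ι (Polynomial.aeval a p) := by
      rw [Polynomial.aeval_def, Polynomial.aeval_def, Polynomial.hom_eval₂]
      congr 1
      exact Subsingleton.elim _ _
    rw [h1, hpa, map_zero]
  obtain ⟨ek1, ek2, ek3, ek4, -⟩ := hEK K ι hι
  have ek5 := hEKA K ι hι
  obtain ⟨ev1, ev2, ev3, ev4, ev5⟩ := hEV K ι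
  have hmonE : ∀ p : IA T L, EFK ι (monA T L p) := by
    intro p
    rw [monA_eq]
    refine ek2 _ _ (ek4 _) ?_
    unfold pA
    refine Finset.prod_induction _ (EFK ι) (fun a b ha hb => ek2 a b ha hb) ?_ fun v _ => ?_
    · have := ek3 1
      rwa [map_one] at this
    · have hpow : ∀ n : ℕ, EFK ι (yA T L v ^ n) := by
        intro n
        induction n with
        | zero => have := ek3 1; rw [pow_zero]; rwa [map_one] at this
        | succ n ih => rw [pow_succ]; exact ek2 _ _ ih (ek5 _ _ _ (hT _ v.2.2))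
      exact hpow _
  have hAE : ∀ y ∈ BB T L, EFK ι y := by
    intro y hy
    induction hy using Submodule.span_induction with
    | mem y hy => obtain ⟨p, rfl⟩ := hy; exact hmonE p
    | zero => have := ek3 0; rwa [map_zero] at this
    | add a b _ _ ha hb => exact ek1 _ _ ha hb
    | smul c a _ ha => rw [PowerSeries.smul_eq_C_mul]; exact ek2 _ _ (ek3 c) ha
  have hVA : ∀ (Λ : Finset K) (d : ℕ), WW T L Λ d ≤ BB T L := fun Λ d =>
    Submodule.span_mono (Set.image_subset_range _ _)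
  -- the norm
  obtain ⟨w, hw⟩ : ∃ w, w = nrm v := ⟨_, rfl⟩
  have hwA : w ∈ BB T L := by
    rw [hw]
    exact prod_mem_BB T L _ _ fun σ _ => act_mem_BB T L hS σ hv
  have hw0 : w ≠ 0 := by rw [hw]; exact nrm_ne hv0
  obtain ⟨y₀, hy₀⟩ := rational_of_fixed (y := w) (fun σ => by rw [hw]; exact act_nrm σ v)
  have hy₀0 : y₀ ≠ 0 := by
    rintro rfl
    rw [map_zero] at hy₀
    exact hw0 hy₀.symm
  obtain ⟨c, hc⟩ := Finsupp.mem_span_range_iff_exists_finsupp.1 hwA
  let Λ : Finset K := Finset.univ.biUnion fun σ : K ≃ₐ[ℚ] K => (insert 0 (c.support.image Prod.fst)).image σ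
  let d : ℕ := c.support.sup fun p => dgA T L p.2
  have hΛ : ∀ σ : K ≃ₐ[ℚ] K, ∀ a ∈ Λ, σ a ∈ Λ := by
    intro σ a ha
    obtain ⟨τ, _, hτ⟩ := Finset.mem_biUnion.1 ha
    obtain ⟨b, hb, rfl⟩ := Finset.mem_image.1 hτ
    exact Finset.mem_biUnion.2 ⟨σ * τ, Finset.mem_univ _, Finset.mem_image.2 ⟨b, hb, rfl⟩⟩
  have hΛ0 : ∀ a ∈ insert 0 (c.support.image Prod.fst), a ∈ Λ := fun a ha =>
    Finset.mem_biUnion.2 ⟨1, Finset.mem_univ _, Finset.mem_image.2 ⟨a, ha, rfl⟩⟩
  have hwV : w ∈ WW T L Λ d := by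
    rw [← hc, Finsupp.sum]
    refine Submodule.sum_mem _ fun p hp => Submodule.smul_mem _ _ (monA_mem_WW T L ⟨?_, ?_⟩)
    · exact Finset.le_sup (f := fun p : IA T L => dgA T L p.2) hp
    · refine Lam_mono (SA T) Λ (Nat.zero_le _) (hΛ0 _ ?_)
      exact Finset.mem_insert_of_mem (Finset.mem_image_of_mem _ hp)
  have h1V : (1 : K⟦X⟧) ∈ WW T L Λ d := by
    rw [← monA_zero T L]
    refine monA_mem_WW T L ⟨?_, ?_⟩
    · simp [dgA]
    · exact Lam_mono (SA T) Λ (Nat.zero_le _) (hΛ0 _ (Finset.mem_insert_self _ _))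
  have hfin : Module.Finite K (WW T L Λ d) := by
    haveI := ((JJA_finite T L Λ d).image (monA T L)).to_subtype
    exact Module.Finite.span_of_finite K ((JJA_finite T L Λ d).image (monA T L))
  have hmain := hDS K ι (WW T L Λ d) hfin h1V (fun σ y hy => act_mem_WW T L hΛ hS σ hy)
    (fun y hy => th_WW T L hT Λ d y hy) (fun N y hy hLI => li_span (hTW K T L h0) (fun i => hVA Λ d (hy i)) hLI)
    (fun y hy => hAE y (hVA Λ d hy)) y₀ hy₀0 (by rw [hy₀]; exact hwV)
  have h5 := ev5 y₀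
  rw [hy₀] at h5
  intro hzero
  apply hmain
  have hprod : ∀ s : Finset (K ≃ₐ[ℚ] K), evK ι (∏ σ ∈ s, act σ v) = ∏ σ ∈ s, evK ι (act σ v) := by
    intro s
    induction s using Finset.induction_on with
    | empty =>
      rw [Finset.prod_empty, Finset.prod_empty]
      have := ev3 1
      rwa [map_one, map_one] at this
    | insert a s ha ih =>
      rw [Finset.prod_insert ha, Finset.prod_insert ha, ev2 _ _ (hAE _ (act_mem_BB T L hS a hv))
        (hAE _ (prod_mem_BB T L _ _ fun σ _ => act_mem_BB T L hS σ hv)), ih]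
  have h6 : evK ι w = 0 := by
    rw [hw, nrm, hprod]
    apply Finset.prod_eq_zero (Finset.mem_univ (1 : K ≃ₐ[ℚ] K))
    have : act (1 : K ≃ₐ[ℚ] K) v = v := by
      ext m
      rw [coeff_map]
      rfl
    rw [this]
    exact hzero
  rw [h6] at h5
  exact_mod_cast h5.symm

end Pool.Agent.P8H90.AP
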