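import Pool.Agent.P8H90.AP.Tower

/-!
# Project AP, package TW: the monomials are linearly independent over `K[X]`, end of the proof
-/

set_option autoImplicit false

open Polynomial

namespace Pool.Agent.P8H90.AP

section

variable {K : Type} [Field K] (S : Finset K) (L : ℕ)

/-- the weight -/
def wt (s : (Fin L × S) →₀ ℕ) : ℕ := ∑ v, (v.1.1 + 1) * s v

lemma wt_add (s t : (Fin L × S) →₀ ℕ) : wt S L (s + t) = wt S L s + wt S L t := by
  unfold wt
  rw [← Finset.sum_add_distrib]
  exact Finset.sum_congr rfl fun v _ => by rw [Finsupp.add_apply]; ring

lemma wt_single (v : Fin L × S) : wt S L (Finsupp.single v 1) = v.1.1 + 1 := by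
  classical
  unfold wt
  rw [Finset.sum_eq_single v]
  · rw [Finsupp.single_eq_same, mul_one]
  · intro w _ hw
    rw [Finsupp.single_apply, if_neg hw.symm, mul_zero]
  · intro h; exact absurd (Finset.mem_univ v) h

lemma eq_zero_of_wt {s : (Fin L × S) →₀ ℕ} (h : wt S L s = 0) : s = 0 := by
  ext v
  unfold wt at h
  rw [Finset.sum_eq_zero_iff] at h
  have := h v (Finset.mem_univ v)
  rcases Nat.mul_eq_zero.1 this with h1 | h1
  · omega
  · simpa using h1

lemma shift_eq {v : Fin L × S} {s : (Fin L × S) →₀ ℕ} (hs : s (pr S L v) ≠ 0) :
    s + Finsupp.single v 1 - Finsupp.single (pr S L v) 1 + Finsupp.single (pr S L v) 1 = s + Finsupp.single v 1 := by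
  classical
  ext w
  simp only [Finsupp.add_apply, Finsupp.tsub_apply, Finsupp.single_apply]
  by_cases hw : pr S L v = w
  · subst hw; rw [if_pos rfl]; omega
  · rw [if_neg hw]; omega

lemma wt_shift {v : Fin L × S} (h : v.1.1 ≠ 0) {s : (Fin L × S) →₀ ℕ} (hs : s (pr S L v) ≠ 0) :
    wt S L (s + Finsupp.single v 1 - Finsupp.single (pr S L v) 1) = wt S L s + 1 := by
  have h1 := congrArg (wt S L) (shift_eq S L hs)
  rw [wt_add, wt_add, wt_single, wt_single] at h1
  have h2 : (pr S L v).1.1 = v.1.1 - 1 := rfl
  rw [h2] at h1
  omega

lemma FV_top {n : ℕ} {c : II S L →₀ K[X]} (hc : ∀ q, c q ≠ 0 → wt S L q.2 < n + 1) (v : Fin L × S) (q : II S L)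
    (hq : n ≤ wt S L q.2) : FV S L v c q = 0 := by
  have hz : ∀ q', n + 1 ≤ wt S L q'.2 → c q' = 0 := fun q' h => by
    by_contra h1
    exact absurd (hc q' h1) (not_lt.2 h)
  unfold FV
  split_ifs with h1 h2
  · rw [hz, hz, sub_zero, mul_zero]
    · rw [wt_add, wt_single]; omega
    · rw [wt_add, wt_single]; omega
  · rfl
  · rw [hz, mul_zero]
    rw [wt_shift S L h1 h2]; omega

variable [CharZero K]

theorem tower (h0 : (0 : K) ∉ S) : LinearIndependent K[X] (mon S L) := by
  classical
  rw [linearIndependent_iff]
  suffices hmain : ∀ (n : ℕ) (c : II S L →₀ K[X]), (∀ q, c q ≠ 0 → wt S L q.2 < n) → eval' S L c = 0 → c = 0 by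
    intro c hc
    refine hmain (c.support.sup (fun q => wt S L q.2) + 1) c (fun q hq => ?_) hc
    exact Nat.lt_succ_of_le (Finset.le_sup (f := fun q : II S L => wt S L q.2) (Finsupp.mem_support_iff.2 hq))
  intro n
  induction n with
  | zero =>
    intro c hc _
    ext1 q
    by_contra h
    exact absurd (hc q h) (Nat.not_lt_zero _)
  | succ n ih =>
    have key : ∀ (k : ℕ) (c : II S L →₀ K[X]), (c.support.filter (fun q => wt S L q.2 = n)).card = k →
        (∀ q, c q ≠ 0 → wt S L q.2 < n + 1) → eval' S L c = 0 → ∀ q, wt S L q.2 = n → c q = 0 := by
      intro k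
      induction k using Nat.strong_induction_on with
      | _ k ihk =>
        intro c hk hc he
        by_contra hcon
        push Not at hcon
        obtain ⟨p0, hp0, hne⟩ := hcon
        obtain ⟨r0, hr0⟩ : ∃ r0, r0 = c p0 := ⟨_, rfl⟩
        have hr00 : r0 ≠ 0 := by rw [hr0]; exact hne
        obtain ⟨c', hc'⟩ : ∃ c' : II S L →₀ K[X], c' = r0 • DD S L c - (r0 * (C p0.1 * X) + X * derivative r0) • c :=
          ⟨_, rfl⟩
        have he' : eval' S L c' = 0 := by
          rw [hc', map_sub, map_smul, map_smul, eval_DD, he, th_zero, smul_zero, smul_zero, sub_zero]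
        have hc'q : ∀ q, c' q = r0 * (X * derivative (c q) + C q.1 * X * c q + ∑ v, FV S L v c q) -
            (r0 * (C p0.1 * X) + X * derivative r0) * c q := by
          intro q
          rw [hc', Finsupp.sub_apply, Finsupp.smul_apply, Finsupp.smul_apply, DD_apply, smul_eq_mul, smul_eq_mul]
        have hbig : ∀ q, n < wt S L q.2 → c' q = 0 := by
          intro q hq
          have h1 : c q = 0 := by
            by_contra h1
            have := hc q h1
            omega
          rw [hc'q, h1, Finset.sum_eq_zero fun v _ => FV_top S L hc v q hq.le]
          simp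
        have htop : ∀ q, wt S L q.2 = n → c' q = r0 * (X * derivative (c q)) - c q * (X * derivative r0) +
            C (q.1 - p0.1) * X * r0 * c q := by
          intro q hq
          rw [hc'q, Finset.sum_eq_zero fun v _ => FV_top S L hc v q hq.ge, C_sub]
          ring
        have hp0' : c' p0 = 0 := by
          rw [htop p0 hp0, ← hr0, sub_self, sub_self, C_0]
          ring
        have hall : ∀ q, wt S L q.2 = n → c' q = 0 := by
          refine ihk _ ?_ c' rfl ?_ he'
          · rw [← hk]
            apply Finset.card_lt_card
            rw [Finset.ssubset_iff_of_subset]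
            · refine ⟨p0, Finset.mem_filter.2 ⟨Finsupp.mem_support_iff.2 hne, hp0⟩, ?_⟩
              rw [Finset.mem_filter, Finsupp.mem_support_iff]
              rintro ⟨h1, _⟩
              exact h1 hp0'
            · intro q hq
              rw [Finset.mem_filter, Finsupp.mem_support_iff] at hq ⊢
              refine ⟨fun h1 => hq.1 ?_, hq.2⟩
              rw [htop q hq.2, h1]
              simp
          · intro q hq
            by_contra h1
            exact hq (hbig q (by omega))
        have hW : ∀ q, c' q ≠ 0 → wt S L q.2 < n := by
          intro q hq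
          by_contra h1
          rcases lt_or_eq_of_le (not_lt.1 h1) with h2 | h2
          · exact hq (hbig q h2)
          · exact hq (hall q h2.symm)
        have hc'0 : c' = 0 := ih c' hW he'
        -- the coefficients at the top
        have h1 : ∀ q, wt S L q.2 = n → c q ≠ 0 → q.1 = p0.1 ∧ ∃ κ : K, c q = C κ * r0 := by
          intro q hq hcq
          have h2 := htop q hq
          rw [hc'0, Finsupp.zero_apply] at h2
          obtain ⟨h3, h4⟩ := poly1 hr00 hcq h2.symm
          exact ⟨sub_eq_zero.1 h3, h4⟩
        have h1' : ∀ (lam : K) (s : (Fin L × S) →₀ ℕ), wt S L s = n → lam ≠ p0.1 → c (lam, s) = 0 := by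
          intro lam s hs hl
          by_contra h2
          exact hl (h1 (lam, s) hs h2).1
        have h2 : ∀ s : (Fin L × S) →₀ ℕ, ∃ κ : K, wt S L s = n → c (p0.1, s) = C κ * r0 := by
          intro s
          by_cases hs : wt S L s = n
          · by_cases h3 : c (p0.1, s) = 0
            · exact ⟨0, fun _ => by rw [h3, C_0, zero_mul]⟩
            · obtain ⟨_, κ, hκ⟩ := h1 (p0.1, s) hs h3
              exact ⟨κ, fun _ => hκ⟩
          · exact ⟨0, fun h => absurd h hs⟩
        choose κ hκ using h2
        -- no functions of the level zero
        have hi : ∀ v : Fin L × S, v.1.1 = 0 → ∀ s : (Fin L × S) →₀ ℕ, wt S L s + 1 = n →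
            κ (s + Finsupp.single v 1) = 0 := by
          intro v hv s hs
          have hv2 : (v.2 : K) ≠ 0 := fun h => h0 (h ▸ v.2.2)
          have hwv : ∀ u : Fin L × S, u.1.1 = 0 → wt S L (s + Finsupp.single u 1) = n := by
            intro u hu
            rw [wt_add, wt_single, hu, ← hs]
          have hsum : ∑ u, FV S L u c (p0.1 - v.2, s) = C (-((s v + 1 : ℕ) : K) * κ (s + Finsupp.single v 1)) * r0 := by
            rw [Finset.sum_eq_single v]
            · unfold FV
              simp only
              rw [if_pos hv, h1' _ _ (hwv v hv) (by
                intro h; apply hv2; linear_combination -h), sub_add_cancel, hκ _ (hwv v hv)]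
              rw [C_mul, C_neg, C_eq_natCast]
              ring
            · intro u _ huv
              unfold FV
              simp only
              split_ifs with h3 h4
              · rw [h1' _ _ (hwv u h3) (by intro h; apply hv2; linear_combination -h), h1' _ _ (hwv u h3), sub_zero,
                  mul_zero]
                intro h
                apply huv
                refine Prod.ext (Fin.ext (by omega)) (Subtype.ext ?_)
                linear_combination h
              · rfl
              · rw [h1' _ _ (by rw [wt_shift S L h3 h4]; exact hs) (by intro h; apply hv2; linear_combination -h), mul_zero]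
            · intro h; exact absurd (Finset.mem_univ v) h
          have h3 := hc'q (p0.1 - v.2, s)
          rw [hc'0, Finsupp.zero_apply, hsum] at h3
          have h4 := poly2 (μ := -(v.2 : K)) (κ := -((s v + 1 : ℕ) : K) * κ (s + Finsupp.single v 1)) _ r0
            (c (p0.1 - v.2, s)) rfl hr00 (by
              simp only [C_sub, C_neg] at h3 ⊢
              linear_combination -h3)
          rcases mul_eq_zero.1 h4 with h5 | h5
          · exfalso
            rw [neg_eq_zero] at h5
            exact Nat.cast_ne_zero.2 (Nat.succ_ne_zero (s v)) h5
          · exact h5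
        -- the equation at the level zero of the exponentials
        have hii : ∀ s : (Fin L × S) →₀ ℕ, wt S L s + 1 = n → ∑ v : Fin L × S, (if v.1.1 = 0 then (0 : K) else
            if s (pr S L v) = 0 then 0 else
              ((s v + 1 : ℕ) : K) * κ (s + Finsupp.single v 1 - Finsupp.single (pr S L v) 1)) = 0 := by
          intro s hs
          have hwv : ∀ u : Fin L × S, u.1.1 = 0 → wt S L (s + Finsupp.single u 1) = n := by
            intro u hu
            rw [wt_add, wt_single, hu, ← hs]
          have hsum : ∑ u, FV S L u c (p0.1, s) = C (∑ v : Fin L × S, (if v.1.1 = 0 then (0 : K) else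
            if s (pr S L v) = 0 then 0 else
              ((s v + 1 : ℕ) : K) * κ (s + Finsupp.single v 1 - Finsupp.single (pr S L v) 1))) * r0 := by
            rw [map_sum, Finset.sum_mul]
            refine Finset.sum_congr rfl fun u _ => ?_
            have hu2 : (u.2 : K) ≠ 0 := fun h => h0 (h ▸ u.2.2)
            unfold FV
            simp only
            split_ifs with h3 h4
            · rw [hκ _ (hwv u h3), hi u h3 s hs, h1' _ _ (hwv u h3) (by intro h; apply hu2; linear_combination h)]
              simp
            · simp
            · rw [hκ _ (by rw [wt_shift S L h3 h4]; exact hs), C_mul, C_eq_natCast]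
              ring
          have h3 := hc'q (p0.1, s)
          rw [hc'0, Finsupp.zero_apply, hsum] at h3
          refine poly2 (μ := 0) _ r0 (c (p0.1, s)) rfl hr00 ?_
          simp only [C_0] at h3 ⊢
          linear_combination -h3
        have hκ0 : κ p0.2 ≠ 0 := by
          intro h
          have h3 := hκ p0.2 hp0
          rw [h, C_0, zero_mul] at h3
          exact hne h3
        rcases Nat.eq_zero_or_pos n with hn | hn
        · -- no functions at all
          have h3 : c = Finsupp.single p0 r0 := by
            ext1 q
            rw [Finsupp.single_apply]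
            split_ifs with h4
            · rw [← h4]; exact hr0.symm
            · by_contra h5
              have h6 := hc q h5
              have h7 : wt S L q.2 = n := by omega
              obtain ⟨h8, -⟩ := h1 q h7 h5
              apply h4
              refine Prod.ext h8.symm ?_
              rw [eq_zero_of_wt S L (by omega : wt S L p0.2 = 0), eq_zero_of_wt S L (by omega : wt S L q.2 = 0)]
          rw [h3, eval', Finsupp.linearCombination_single, smul_coe, mon_eq,
            eq_zero_of_wt S L (by omega : wt S L p0.2 = 0), pp_zero, mul_one] at he
          rcases mul_eq_zero.1 he with h4 | h4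
          · exact hr00 (by exact_mod_cast h4)
          · exact ex_ne _ h4
        · have hex : ∃ m : ℕ, ∃ s : (Fin L × S) →₀ ℕ, wt S L s = n ∧ κ s ≠ 0 ∧ ∃ v : Fin L × S, v.1.1 = m ∧ s v ≠ 0 := by
            have h3 : p0.2 ≠ 0 := by
              intro h
              rw [h] at hp0
              have : wt S L 0 = 0 := by unfold wt; simp
              omega
            obtain ⟨v, hv⟩ := Finsupp.ne_iff.1 h3
            exact ⟨_, p0.2, hp0, hκ0, v, rfl, by simpa using hv⟩
          obtain ⟨s', hs', hκs, v, hv, hsv⟩ := Nat.find_spec hex
          have hmin := fun m hm => Nat.find_min hex (m := m) hm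
          set m := Nat.find hex with hm
          have hback : s' - Finsupp.single v 1 + Finsupp.single v 1 = s' := by
            ext w
            simp only [Finsupp.add_apply, Finsupp.tsub_apply, Finsupp.single_apply]
            split_ifs with hw
            · subst hw; omega
            · omega
          by_cases hm0 : m = 0
          · apply hκs
            have h3 := congrArg (wt S L) hback
            rw [wt_add, wt_single] at h3
            rw [← hback]
            exact hi v (by omega) _ (by omega)
          · have hv0 : v.1.1 ≠ 0 := by omega
            have hne := pr_ne S L hv0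
            obtain ⟨s, hs⟩ : ∃ s, s = s' - Finsupp.single v 1 + Finsupp.single (pr S L v) 1 := ⟨_, rfl⟩
            have hsp : s (pr S L v) ≠ 0 := by rw [hs]; simp
            have hsv1 : s v + 1 = s' v := by
              rw [hs]
              simp only [Finsupp.add_apply, Finsupp.tsub_apply, Finsupp.single_eq_same, Finsupp.single_apply, if_neg hne]
              omega
            have hss : s + Finsupp.single v 1 - Finsupp.single (pr S L v) 1 = s' := by
              have h5 : s + Finsupp.single v 1 = s' + Finsupp.single (pr S L v) 1 := by
                rw [hs, add_right_comm, hback]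
              rw [h5, add_tsub_cancel_right]
            have hws : wt S L s + 1 = n := by
              have h5 := wt_shift S L hv0 hsp
              rw [hss, hs'] at h5
              omega
            have h6 := hii s hws
            rw [Finset.sum_eq_single v, if_neg hv0, if_neg hsp, hss] at h6
            · rcases mul_eq_zero.1 h6 with h7 | h7
              · exact Nat.cast_ne_zero.2 (Nat.succ_ne_zero (s v)) h7
              · exact hκs h7
            · intro u _ huv
              split_ifs with h7 h8
              · rfl
              · rfl
              · have h9 : κ (s + Finsupp.single u 1 - Finsupp.single (pr S L u) 1) = 0 := by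
                  by_contra h10
                  refine hmin (m - 1) (by omega) ⟨_, by rw [wt_shift S L h7 h8]; exact hws, h10, pr S L v, ?_, ?_⟩
                  · unfold pr; simp only; omega
                  · have h11 : pr S L u ≠ pr S L v := fun h => huv (pr_inj S L h7 hv0 h)
                    simp only [Finsupp.add_apply, Finsupp.tsub_apply, Finsupp.single_apply, if_neg h11]
                    omega
                rw [h9, mul_zero]
            · intro h; exact absurd (Finset.mem_univ v) h
    intro c hc he
    refine ih c (fun q hq => ?_) he
    have h1 := hc q hq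
    rcases lt_or_eq_of_le (Nat.lt_succ_iff.1 h1) with h2 | h2
    · exact h2
    · exact absurd (key _ c rfl hc he q h2) hq

end

/-- package TW -/
theorem s_tw : S_TW := fun _ _ _ S L h0 => tower S L h0

end Pool.Agent.P8H90.AP
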